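import Pool.Agent.H70.GR.Stm

/-! EXPK: expansion of the weighted density to first order. -/

set_option autoImplicit false
open Finset

namespace Pool.Agent.H70.GR.EXPK

open Pool.Agent.H70.RC Pool.Agent.H70.QR Pool.Agent.H70.GR

/-- expansion of a product -/
theorem prod_exp {ι : Type} [DecidableEq ι] (A : Finset ι) (w : ι → ℝ) (hw : ∀ p, |w p| ≤ 1) (s : ℝ)
    (hs0 : 0 ≤ s) (hs1 : s ≤ 1) :
    |∏ p ∈ A, (1 + s * w p)| ≤ 2 ^ A.card ∧ |∏ p ∈ A, (1 + s * w p) - 1| ≤ s * (2 ^ A.card - 1) ∧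
      |∏ p ∈ A, (1 + s * w p) - 1 - s * ∑ p ∈ A, w p| ≤ s ^ 2 * (2 ^ A.card - 1 - A.card) := by
  induction A using Finset.induction_on with
  | empty => simp
  | insert p A hp ih =>
    obtain ⟨h1, h2, h3⟩ := ih
    rw [prod_insert hp, sum_insert hp, card_insert_of_notMem hp]
    set P := ∏ p ∈ A, (1 + s * w p) with hP
    set S := ∑ p ∈ A, w p with hS
    have hwp := hw p
    have hsw : |s * w p| ≤ s := by
      rw [abs_mul, abs_of_nonneg hs0]
      exact mul_le_of_le_one_right hs0 hwp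
    have h1w : |1 + s * w p| ≤ 2 := by
      refine (abs_add_le _ _).trans ?_
      rw [abs_one]
      linarith
    have hpow : (0 : ℝ) ≤ 2 ^ A.card := by positivity
    refine ⟨?_, ?_, ?_⟩
    · rw [abs_mul, pow_succ, mul_comm ((2 : ℝ) ^ A.card)]
      exact mul_le_mul h1w h1 (abs_nonneg _) (by norm_num)
    · have e : (1 + s * w p) * P - 1 = (P - 1) + s * w p * P := by ring
      rw [e]
      refine (abs_add_le _ _).trans ?_
      rw [abs_mul (s * w p)]
      have h4 : |s * w p| * |P| ≤ s * 2 ^ A.card := mul_le_mul hsw h1 (abs_nonneg _) hs0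
      rw [pow_succ]
      nlinarith
    · have e : (1 + s * w p) * P - 1 - s * (w p + S) = (P - 1 - s * S) + s * w p * (P - 1) := by ring
      rw [e]
      refine (abs_add_le _ _).trans ?_
      rw [abs_mul (s * w p)]
      have h4 : |s * w p| * |P - 1| ≤ s * (s * (2 ^ A.card - 1)) :=
        mul_le_mul hsw h2 (abs_nonneg _) hs0
      have e2 : (2 : ℝ) ^ (A.card + 1) = 2 * 2 ^ A.card := by rw [pow_succ]; ring
      rw [e2]
      push_cast
      linarith

theorem exists_perm {k : ℕ} (i0 i1 i j : Fin k) (h01 : i0 ≠ i1) (hij : i ≠ j) :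
    ∃ σ : Equiv.Perm (Fin k), σ i0 = i ∧ σ i1 = j := by
  refine ⟨(Equiv.swap i0 i).trans (Equiv.swap (Equiv.swap i0 i i1) j), ?_, ?_⟩
  · rw [Equiv.trans_apply, Equiv.swap_apply_left]
    apply Equiv.swap_apply_of_ne_of_ne
    · intro h
      have h2 : Equiv.swap i0 i i0 = Equiv.swap i0 i i1 := by rw [Equiv.swap_apply_left]; exact h
      exact h01 ((Equiv.swap i0 i).injective h2)
    · exact hij
  · rw [Equiv.trans_apply, Equiv.swap_apply_left]

section main

variable {V : Type} [Fintype V] [Nonempty V] {m : ℕ} {χ : (Fin (m + 2) → V) → ℝ}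

omit [Nonempty V] in
/-- averages over the functions on `Fin (m + 1)` -/
theorem av_cons {n : ℕ} (F : (Fin (n + 1) → V) → ℝ) :
    av F = av fun u : V => av fun y : Fin n → V => F (Fin.cons u y : Fin (n + 1) → V) := by
  rw [← av_prod (fun (u : V) (y : Fin n → V) => F (Fin.cons u y : Fin (n + 1) → V)),
    ← av_equiv (Fin.consEquiv (fun _ : Fin (n + 1) => V)) F]
  rfl

theorem av_pair (hχ : KerK χ) (φ : V → V → ℝ) {i j : Fin (m + 2)} (hij : i ≠ j) :
    (av fun x : Fin (m + 2) → V => φ (x i) (x j) * χ x) =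
      av fun u => av fun v => φ u v * cod2 χ u v := by
  have h01 : (0 : Fin (m + 2)) ≠ 1 := by
    intro h
    have := congrArg Fin.val h
    simp at this
  obtain ⟨σ, h0, h1⟩ := exists_perm (0 : Fin (m + 2)) 1 i j h01 hij
  let F : (Fin (m + 2) → V) → ℝ := fun y => φ (y 0) (y 1) * χ y
  have e1 : (av fun x : Fin (m + 2) → V => φ (x i) (x j) * χ x) = av F := by
    rw [← av_equiv (Equiv.arrowCongr σ.symm (Equiv.refl V)) F]
    refine av_congr fun x => ?_
    show φ (x i) (x j) * χ x = φ (x (σ 0)) (x (σ 1)) * χ (x ∘ σ)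
    rw [h0, h1, hχ.symm]
  rw [e1, av_cons]
  refine av_congr fun u => ?_
  rw [av_cons]
  refine av_congr fun v => ?_
  unfold cod2
  rw [← av_mul_left]
  refine av_congr fun z => ?_
  rfl

/-- the lower bound of the weighted density -/
theorem twk_ge (hχ : KerK χ) (φ : V → V → ℝ) (hφ : ∀ x y, |φ x y| ≤ 1) {s : ℝ} (hs0 : 0 ≤ s)
    (hs1 : s ≤ 1) :
    av χ + s * (((univ.filter (fun p : Fin (m + 2) × Fin (m + 2) => p.1 < p.2)).card : ℝ) *
      av fun u => av fun v => φ u v * cod2 χ u v) -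
      s ^ 2 * 2 ^ (univ.filter (fun p : Fin (m + 2) × Fin (m + 2) => p.1 < p.2)).card ≤
      TWK χ φ s := by
  classical
  set A := univ.filter (fun p : Fin (m + 2) × Fin (m + 2) => p.1 < p.2) with hA
  have h1 : (av fun x : Fin (m + 2) → V =>
      χ x + s * (∑ p ∈ A, φ (x p.1) (x p.2) * χ x) - s ^ 2 * 2 ^ A.card) ≤ TWK χ φ s := by
    refine av_mono fun x => ?_
    have h2 := (prod_exp A (fun p => φ (x p.1) (x p.2)) (fun p => hφ _ _) s hs0 hs1).2.2
    have h3 := (abs_le.1 h2).1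
    have h4 : s ^ 2 * (2 ^ A.card - 1 - A.card) ≤ s ^ 2 * 2 ^ A.card := by
      refine mul_le_mul_of_nonneg_left ?_ (sq_nonneg s)
      have : (0 : ℝ) ≤ A.card := Nat.cast_nonneg _
      linarith
    have h5 : 1 + s * ∑ p ∈ A, φ (x p.1) (x p.2) - s ^ 2 * 2 ^ A.card ≤
        ∏ p ∈ A, (1 + s * φ (x p.1) (x p.2)) := by linarith
    have h6 := mul_le_mul_of_nonneg_right h5 (hχ.nonneg x)
    have h7 : s ^ 2 * 2 ^ A.card * χ x ≤ s ^ 2 * 2 ^ A.card :=
      mul_le_of_le_one_right (by positivity) (hχ.le_one x)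
    rw [← sum_mul]
    linarith [h6, h7]
  have h2 : (av fun x : Fin (m + 2) → V =>
      χ x + s * (∑ p ∈ A, φ (x p.1) (x p.2) * χ x) - s ^ 2 * 2 ^ A.card) =
      av χ + s * ((A.card : ℝ) * av fun u => av fun v => φ u v * cod2 χ u v) -
        s ^ 2 * 2 ^ A.card := by
    rw [av_sub, av_add, av_mul_left, av_const, av_sum]
    congr 3
    rw [← nsmul_eq_mul, ← sum_const]
    refine sum_congr rfl fun p hp => ?_
    exact av_pair hχ φ (ne_of_lt (mem_filter.1 hp).2)
  rw [h2] at h1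
  exact h1

end main

theorem expk : S_EXPK := by
  intro V _ _ m χ hχ a η hη0 hη1 ha φ _ hφ1 hT
  set A := univ.filter (fun p : Fin (m + 2) × Fin (m + 2) => p.1 < p.2) with hA
  set L := av fun u => av fun v => φ u v * cod2 χ u v with hL
  have hsq : 0 ≤ √η := Real.sqrt_nonneg η
  have hsq1 : √η ≤ 1 := Real.sqrt_le_one.2 hη1
  have hsq2 : √η ^ 2 = η := Real.sq_sqrt hη0.le
  have hsqpos : 0 < √η := Real.sqrt_pos.2 hη0
  have h1 := twk_ge (s := √η) hχ φ hφ1 hsq hsq1
  have h2 := twk_ge (s := √η) hχ (fun x y => - φ x y) (fun x y => by rw [abs_neg]; exact hφ1 x y)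
    hsq hsq1
  obtain ⟨h3, h4⟩ := hT √η hsq hsq1
  have hneg : (av fun u => av fun v => (fun x y => - φ x y) u v * cod2 χ u v) = - L := by
    rw [hL, ← av_neg]
    refine av_congr fun u => ?_
    rw [← av_neg]
    refine av_congr fun v => ?_
    show - φ u v * cod2 χ u v = _
    ring
  rw [hneg] at h2
  rw [← hA, ← hL, hsq2] at h1
  rw [← hA, hsq2] at h2
  -- the number of the pairs
  have hK1 : 1 ≤ A.card := by
    rw [Nat.one_le_iff_ne_zero, Ne, card_eq_zero]
    intro h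
    have h5 : ((0 : Fin (m + 2)), (1 : Fin (m + 2))) ∈ A := by
      rw [hA, mem_filter]
      refine ⟨mem_univ _, ?_⟩
      rw [Fin.lt_def]
      simp
    rw [h] at h5
    exact absurd h5 (notMem_empty _)
  have hK2 : A.card ≤ (m + 2) ^ 2 := by
    refine (card_le_univ _).trans ?_
    rw [Fintype.card_prod, Fintype.card_fin, sq]
  have hpow : (2 : ℝ) ^ A.card ≤ 2 ^ ((m + 2) ^ 2) := pow_le_pow_right₀ (by norm_num) hK2
  have hK1' : (1 : ℝ) ≤ A.card := by exact_mod_cast hK1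
  have key : (A.card : ℝ) * |L| * √η ≤ (2 + 2 ^ A.card) * √η * √η := by
    have e1 : (2 + 2 ^ A.card) * √η * √η = 2 * η + η * 2 ^ A.card := by
      rw [mul_assoc, ← sq, hsq2]
      ring
    rw [e1]
    rcases abs_cases L with ⟨h5, -⟩ | ⟨h5, -⟩
    · rw [h5]
      nlinarith
    · rw [h5]
      nlinarith
  have key2 : (A.card : ℝ) * |L| ≤ (2 + 2 ^ A.card) * √η := le_of_mul_le_mul_right key hsqpos
  calc |L| ≤ (A.card : ℝ) * |L| := le_mul_of_one_le_left (abs_nonneg _) hK1'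
    _ ≤ (2 + 2 ^ A.card) * √η := key2
    _ ≤ (2 + 2 ^ ((m + 2) ^ 2)) * √η := by gcongr

end Pool.Agent.H70.GR.EXPK
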