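import Pool.Agent.H70.GR.FIN

/-! From averages to sums. -/

set_option autoImplicit false
set_option linter.unusedSectionVars false
open Finset Filter Topology

namespace Pool.Agent.H70.GR.Conv

open Pool.Agent.H70.RC Pool.Agent.H70.QR Pool.Agent.H70.GR Pool.Agent.H70.GR.FIN

/-- The pair degrees are a Gram matrix. -/
def GramC (k : ℕ) (a η : ℝ) {N : ℕ} (H : Finset (Finset (Fin N))) : Prop :=
  ∀ D : ℕ, 1 ≤ D → ∃ u : Fin N → Fin D → ℝ,
    ∑ x, ∑ i, u x i ^ 2 ≤ (a + η) * N ∧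
    ∑ i, (∑ x, u x i) ^ 2 ≤ η * (N : ℝ) ^ 2 ∧
    ∑ x, ∑ y ∈ univ.erase x,
      (((k - 2).factorial : ℝ) * pdeg H x y / (N : ℝ) ^ (k - 2) - (a - ∑ i, u x i * u y i)) ^ 2
        ≤ (a ^ 2 / (4 * D) + η) * (N : ℝ) ^ 2

theorem ratio_ge {N k : ℕ} (hN : 1 ≤ N) (hk : k ≤ N) :
    1 - (k : ℝ) ^ 2 / N ≤ (N.descFactorial k : ℝ) / (N : ℝ) ^ k := by
  have hN0 : (0 : ℝ) < N := by exact_mod_cast hN
  rw [le_div_iff₀ (by positivity)]
  have h1 : ((N + 1 - k : ℕ) : ℝ) ^ k ≤ (N.descFactorial k : ℝ) := by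
    exact_mod_cast Nat.pow_sub_le_descFactorial N k
  refine le_trans ?_ h1
  have h2 : (N : ℝ) - k ≤ ((N + 1 - k : ℕ) : ℝ) := by
    have : N ≤ (N + 1 - k) + k := by omega
    have : (N : ℝ) ≤ ((N + 1 - k : ℕ) : ℝ) + k := by exact_mod_cast this
    linarith
  have h3 : (0 : ℝ) ≤ (N : ℝ) - k := by
    have : (k : ℝ) ≤ N := by exact_mod_cast hk
    linarith
  refine le_trans ?_ (pow_le_pow_left₀ h3 h2 k)
  have h4 : ((N : ℝ) - k) ^ k = (1 + (-(k : ℝ) / N)) ^ k * (N : ℝ) ^ k := by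
    rw [← mul_pow]
    congr 1
    field_simp
    ring
  rw [h4]
  refine mul_le_mul_of_nonneg_right ?_ (by positivity)
  have h5 : (-2 : ℝ) ≤ -(k : ℝ) / N := by
    rw [le_div_iff₀ hN0]
    linarith
  have h6 := one_add_mul_le_pow h5 k
  refine le_trans (le_of_eq ?_) h6
  ring

theorem dens_eq (hKER : S_KERK) {k N : ℕ} {H : Finset (Finset (Fin N))} (hH : ∀ e ∈ H, e.card = k) :
    av (TK k H) = (k.factorial : ℝ) * H.card / (N : ℝ) ^ k := by
  unfold av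
  rw [hKER.2.1 k N H hH, Fintype.card_fun, Fintype.card_fin, Fintype.card_fin]
  push_cast
  rfl

theorem main (hTEL : S_TELK) (hVW : S_VWK) (hEXP : S_EXPK) (hPSD : S_PSDK) (hLA : S_LAK) (hKER : S_KERK)
    (hLIM : S_LIMK) {k : ℕ} (hk : 2 ≤ k) {P : ∀ n : ℕ, Finset (Finset (Fin n)) → Prop} (hP : ClsK k P) :
    ∃ a : ℝ, 0 ≤ a ∧ a ≤ 1 ∧ Tendsto (fun n : ℕ => (exP P n : ℝ) / (n.choose k : ℝ)) atTop (𝓝 a) ∧
      ∀ η : ℝ, 0 < η → ∃ δ : ℝ, 0 < δ ∧ ∃ N₀ : ℕ, ∀ N ≥ N₀, ∀ H : Finset (Finset (Fin N)), P N H →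
        (exP P N : ℝ) ≤ H.card + δ * (N : ℝ) ^ k → GramC k a η H := by
  obtain ⟨m, rfl⟩ : ∃ m, k = m + 2 := ⟨k - 2, by omega⟩
  obtain ⟨a, ha0, ha1, hlim, hge⟩ := hLIM (m + 2) (by omega) P hP
  refine ⟨a, ha0, ha1, hlim, ?_⟩
  intro η hη
  obtain ⟨δ, hδ, hg⟩ := gram hTEL hVW hEXP hPSD hLA hKER hP ha0 ha1 hlim hη
  have hkf : (0 : ℝ) < ((m + 2).factorial : ℝ) := by exact_mod_cast Nat.factorial_pos _
  refine ⟨δ / (2 * ((m + 2).factorial : ℝ)), by positivity, max (m + 2) (⌈2 * ((m + 2 : ℕ) : ℝ) ^ 2 / δ⌉₊), ?_⟩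
  intro N hN H hH hext
  have hN1 : m + 2 ≤ N := le_trans (le_max_left _ _) hN
  have hN2 : 2 * ((m + 2 : ℕ) : ℝ) ^ 2 / δ ≤ N := by
    have h1 : ⌈2 * ((m + 2 : ℕ) : ℝ) ^ 2 / δ⌉₊ ≤ N := le_trans (le_max_right _ _) hN
    exact (Nat.le_ceil _).trans (by exact_mod_cast h1)
  have hN0 : (0 : ℝ) < N := by exact_mod_cast (by omega : 0 < N)
  haveI : Nonempty (Fin N) := ⟨⟨0, by omega⟩⟩
  have huni := hP.uni N H hH
  -- density
  have hdens : a - δ ≤ av (TK (m + 2) H) := by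
    rw [dens_eq hKER huni]
    have h1 := hge N hN1
    have hch : (0 : ℝ) < (N.choose (m + 2) : ℝ) := by exact_mod_cast Nat.choose_pos hN1
    rw [le_div_iff₀ hch] at h1
    have h2 : a * (N.descFactorial (m + 2) : ℝ) ≤ ((m + 2).factorial : ℝ) * exP P N := by
      rw [descFactorial_eq]
      have := mul_le_mul_of_nonneg_left h1 hkf.le
      linarith
    have h3 := ratio_ge (N := N) (k := m + 2) (by omega) hN1
    rw [le_div_iff₀ (by positivity)] at h3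
    have h4 : ((m + 2 : ℕ) : ℝ) ^ 2 / N ≤ δ / 2 := by
      rw [div_le_iff₀ hN0]
      rw [div_le_iff₀ hδ] at hN2
      linarith
    rw [le_div_iff₀ (by positivity)]
    have h5 : (1 - δ / 2) * (N : ℝ) ^ (m + 2) ≤ (N.descFactorial (m + 2) : ℝ) :=
      le_trans (mul_le_mul_of_nonneg_right (by linarith) (by positivity)) h3
    have h6 : a * ((1 - δ / 2) * (N : ℝ) ^ (m + 2)) ≤ ((m + 2).factorial : ℝ) * exP P N :=
      le_trans (mul_le_mul_of_nonneg_left h5 ha0) h2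
    have h7 : ((m + 2).factorial : ℝ) * exP P N ≤
        ((m + 2).factorial : ℝ) * H.card + δ / 2 * (N : ℝ) ^ (m + 2) := by
      have h8 := mul_le_mul_of_nonneg_left hext hkf.le
      have h9 : ((m + 2).factorial : ℝ) * (H.card + δ / (2 * ((m + 2).factorial : ℝ)) * (N : ℝ) ^ (m + 2))
          = ((m + 2).factorial : ℝ) * H.card + δ / 2 * (N : ℝ) ^ (m + 2) := by
        field_simp
      rw [h9] at h8
      exact h8
    have h10 : a * (δ / 2 * (N : ℝ) ^ (m + 2)) ≤ 1 * (δ / 2 * (N : ℝ) ^ (m + 2)) :=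
      mul_le_mul_of_nonneg_right ha1 (by positivity)
    nlinarith
  intro D hD
  obtain ⟨u, h1, h2, h3⟩ := hg N (by omega) H hH hdens D hD
  refine ⟨u, ?_, ?_, ?_⟩
  · unfold av at h1
    rw [Fintype.card_fin, div_le_iff₀ hN0] at h1
    exact h1
  · unfold av at h2
    rw [Fintype.card_fin] at h2
    simp only [div_pow] at h2
    rw [← sum_div, div_le_iff₀ (by positivity)] at h2
    exact h2
  · rw [av_av, Fintype.card_fin, div_le_iff₀ (by positivity)] at h3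
    refine le_trans (sum_le_sum fun x _ => ?_) h3
    calc ∑ y ∈ univ.erase x, (((m + 2 - 2).factorial : ℝ) * pdeg H x y / (N : ℝ) ^ (m + 2 - 2)
          - (a - ∑ i, u x i * u y i)) ^ 2
        = ∑ y ∈ univ.erase x, (a - cod2 (TK (m + 2) H) x y - ∑ i, u x i * u y i) ^ 2 := by
          refine sum_congr rfl fun y hy => ?_
          rw [hKER.2.2.2 m N H huni x y (ne_of_mem_erase hy).symm]
          simp only [Nat.add_sub_cancel]
          ring
      _ ≤ _ := sum_le_sum_of_subset_of_nonneg (subset_univ _) fun y _ _ => sq_nonneg _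

end Pool.Agent.H70.GR.Conv
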