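import Pool.Agent.H70.GR.Stm

/-! Kernels of k-graphs. -/

set_option autoImplicit false
open Finset

namespace Pool.Agent.H70.GR.KERK

open Pool.Agent.H70.RC Pool.Agent.H70.QR Pool.Agent.H70.GR

/-- the number of the maps onto a set of `k` elements -/
theorem card_img {k n : ℕ} {e : Finset (Fin n)} (he : e.card = k) :
    (univ.filter fun x : Fin k → Fin n => univ.image x = e).card = k.factorial := by
  classical
  have h1 : (univ.filter fun x : Fin k → Fin n => univ.image x = e) =
      univ.image (fun (σ : Fin k ≃ e) (i : Fin k) => (σ i : Fin n)) := by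
    ext x
    rw [mem_filter, mem_image]
    constructor
    · rintro ⟨-, hx⟩
      have hmem : ∀ i, x i ∈ e := fun i => by
        rw [← hx]; exact mem_image_of_mem _ (mem_univ i)
      have hsurj : Function.Surjective (fun i => (⟨x i, hmem i⟩ : e)) := by
        rintro ⟨v, hv⟩
        rw [← hx] at hv
        obtain ⟨i, -, hi⟩ := mem_image.1 hv
        exact ⟨i, Subtype.ext hi⟩
      have hbij : Function.Bijective (fun i => (⟨x i, hmem i⟩ : e)) := by
        rw [Fintype.bijective_iff_surjective_and_card]
        refine ⟨hsurj, ?_⟩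
        rw [Fintype.card_fin, Fintype.card_coe, he]
      exact ⟨Equiv.ofBijective _ hbij, mem_univ _, rfl⟩
    · rintro ⟨σ, -, rfl⟩
      refine ⟨mem_univ _, ?_⟩
      ext v
      rw [mem_image]
      constructor
      · rintro ⟨i, -, rfl⟩
        exact (σ i).2
      · intro hv
        exact ⟨σ.symm ⟨v, hv⟩, mem_univ _, by simp⟩
  rw [h1, card_image_of_injective]
  · rw [card_univ, Fintype.card_equiv (e.equivFinOfCardEq he).symm, Fintype.card_fin]
  · intro σ τ h
    ext i
    exact congrArg Fin.val (congrFun h i)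

theorem tk_eq (k : ℕ) {n : ℕ} (H : Finset (Finset (Fin n))) (x : Fin k → Fin n) :
    TK k H x = ∑ e ∈ H, if univ.image x = e then (1 : ℝ) else 0 := by
  unfold TK
  rw [Finset.sum_ite_eq]

theorem sum_tk {k n : ℕ} {H : Finset (Finset (Fin n))} (hH : ∀ e ∈ H, e.card = k) :
    ∑ x : Fin k → Fin n, TK k H x = (k.factorial : ℝ) * H.card := by
  simp only [tk_eq]
  rw [sum_comm]
  have : ∀ e ∈ H, ∑ x : Fin k → Fin n, (if univ.image x = e then (1 : ℝ) else 0) =
      (k.factorial : ℝ) := by
    intro e he
    rw [← card_img (hH e he), Finset.sum_boole]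
  rw [sum_congr rfl this, sum_const, nsmul_eq_mul, mul_comm]

theorem tk_pull {k N n : ℕ} {H : Finset (Finset (Fin N))} (hH : ∀ e ∈ H, e.card = k)
    (φ : Fin n → Fin N) (x : Fin k → Fin n) :
    TK k H (fun i => φ (x i)) = TK k (pullK k H φ) x := by
  unfold TK pullK
  have h1 : univ.image (fun i => φ (x i)) = (univ.image x).image φ := by
    rw [image_image]
    rfl
  rw [h1]
  by_cases h : (univ.image x).image φ ∈ H
  · rw [if_pos h, if_pos]
    rw [mem_filter]
    refine ⟨?_, h⟩
    rw [mem_powersetCard]
    refine ⟨subset_univ _, ?_⟩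
    have h2 := hH _ h
    have h3 : ((univ.image x).image φ).card ≤ (univ.image x).card := card_image_le
    have h4 : (univ.image x).card ≤ k := by
      refine card_image_le.trans ?_
      rw [card_univ, Fintype.card_fin]
    omega
  · rw [if_neg h, if_neg]
    rw [mem_filter]
    exact fun h' => h h'.2

theorem pullK_card {k N n : ℕ} {H : Finset (Finset (Fin N))} (φ : Fin n → Fin N) :
    ∀ e ∈ pullK k H φ, e.card = k := by
  intro e he
  unfold pullK at he
  rw [mem_filter, mem_powersetCard] at he
  exact he.1.2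

theorem le_exP' {P : ∀ n : ℕ, Finset (Finset (Fin n)) → Prop} {n : ℕ} {H : Finset (Finset (Fin n))}
    (h : P n H) : H.card ≤ exP P n := by
  apply le_csSup
  · refine ⟨(univ : Finset (Finset (Fin n))).card, ?_⟩
    rintro m ⟨K, _, rfl⟩
    exact card_le_univ K
  · exact ⟨H, h, rfl⟩

theorem kerk1 (k n : ℕ) (H : Finset (Finset (Fin n))) (hH : ∀ e ∈ H, e.card = k) :
    KerK (TK k H) where
  nonneg x := by
    unfold TK
    split_ifs <;> norm_num
  le_one x := by
    unfold TK
    split_ifs <;> norm_num
  symm σ x := by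
    unfold TK
    have : univ.image (x ∘ σ) = univ.image x := by
      ext v
      simp only [mem_image, mem_univ, true_and, Function.comp_apply]
      constructor
      · rintro ⟨i, hi⟩
        exact ⟨σ i, hi⟩
      · rintro ⟨i, hi⟩
        exact ⟨σ.symm i, by rw [Equiv.apply_symm_apply]; exact hi⟩
    rw [this]
  inj x hx := by
    unfold TK
    rw [if_neg]
    intro h
    apply hx
    have h1 := hH _ h
    have h2 : (univ.image x).card = (univ : Finset (Fin k)).card := by
      rw [h1, card_univ, Fintype.card_fin]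
    rw [card_image_iff] at h2
    intro a b hab
    exact h2 (by simp) (by simp) hab

theorem img_cons {m n : ℕ} (x y : Fin n) (z : Fin m → Fin n) :
    univ.image (Fin.cons x (Fin.cons y z : Fin (m + 1) → Fin n) : Fin (m + 2) → Fin n) =
      insert x (insert y (univ.image z)) := by
  ext v
  simp only [mem_image, mem_univ, true_and, mem_insert]
  constructor
  · rintro ⟨i, hi⟩
    refine Fin.cases (motive := fun i => (Fin.cons x (Fin.cons y z : Fin (m + 1) → Fin n) :
      Fin (m + 2) → Fin n) i = v → _) ?_ ?_ i hi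
    · intro h
      exact Or.inl h.symm
    · intro i
      refine Fin.cases (motive := fun i => (Fin.cons x (Fin.cons y z : Fin (m + 1) → Fin n) :
        Fin (m + 2) → Fin n) i.succ = v → _) ?_ ?_ i
      · intro h
        exact Or.inr (Or.inl h.symm)
      · intro j h
        exact Or.inr (Or.inr ⟨j, h⟩)
  · rintro (h | h | ⟨j, h⟩)
    · exact ⟨0, h.symm⟩
    · exact ⟨(0 : Fin (m + 1)).succ, h.symm⟩
    · exact ⟨j.succ.succ, h⟩

theorem img_iff {m n : ℕ} {e : Finset (Fin n)} (he : e.card = m + 2) {x y : Fin n} (hxy : x ≠ y)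
    (z : Fin m → Fin n) :
    insert x (insert y (univ.image z)) = e ↔
      (x ∈ e ∧ y ∈ e) ∧ univ.image z = (e.erase x).erase y := by
  set S := univ.image z with hS
  have hSc : S.card ≤ m := by
    refine card_image_le.trans ?_
    rw [card_univ, Fintype.card_fin]
  constructor
  · rintro rfl
    have h1 : x ∉ insert y S := by
      intro h
      rw [insert_eq_of_mem h] at he
      have := card_insert_le y S
      omega
    have h2 : y ∉ S := by
      intro h
      rw [insert_eq_of_mem h] at he
      have := card_insert_le x S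
      omega
    refine ⟨⟨mem_insert_self _ _, mem_insert_of_mem (mem_insert_self _ _)⟩, ?_⟩
    rw [erase_insert h1, erase_insert h2]
  · rintro ⟨⟨hx, hy⟩, h⟩
    rw [h, insert_erase (mem_erase.2 ⟨hxy.symm, hy⟩), insert_erase hx]

theorem kerk4 (m n : ℕ) (H : Finset (Finset (Fin n))) (hH : ∀ e ∈ H, e.card = m + 2) (x y : Fin n)
    (hxy : x ≠ y) :
    cod2 (TK (m + 2) H) x y = (m.factorial : ℝ) * pdeg H x y / (n : ℝ) ^ m := by
  unfold cod2 av
  rw [Fintype.card_fun, Fintype.card_fin, Fintype.card_fin, Nat.cast_pow]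
  congr 1
  simp only [tk_eq, img_cons]
  rw [sum_comm]
  have : ∀ e ∈ H, ∑ z : Fin m → Fin n,
      (if insert x (insert y (univ.image z)) = e then (1 : ℝ) else 0) =
      if x ∈ e ∧ y ∈ e then (m.factorial : ℝ) else 0 := by
    intro e he
    rw [Finset.sum_boole]
    by_cases h : x ∈ e ∧ y ∈ e
    · rw [if_pos h]
      have hc : ((e.erase x).erase y).card = m := by
        rw [card_erase_of_mem (mem_erase.2 ⟨hxy.symm, h.2⟩), card_erase_of_mem h.1, hH e he]
        omega
      rw [← card_img hc]
      congr 2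
      ext z
      rw [mem_filter, mem_filter, img_iff (hH e he) hxy]
      exact ⟨fun h' => ⟨h'.1, h'.2.2⟩, fun h' => ⟨h'.1, h, h'.2⟩⟩
    · rw [if_neg h]
      have : (univ.filter fun z : Fin m → Fin n => insert x (insert y (univ.image z)) = e) = ∅ := by
        rw [filter_eq_empty_iff]
        intro z _ hz
        exact h ((img_iff (hH e he) hxy z).1 hz).1
      rw [this, card_empty, Nat.cast_zero]
  rw [sum_congr rfl this, ← sum_filter, sum_const, nsmul_eq_mul]
  unfold pdeg
  rw [mul_comm]

theorem kerk : S_KERK := by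
  refine ⟨kerk1, fun k n H hH => sum_tk hH, ?_, kerk4⟩
  intro k P hP N H hPH n φ
  have h1 : ∀ x : Fin k → Fin n, TK k H (fun i => φ (x i)) = TK k (pullK k H φ) x :=
    tk_pull (hP.uni N H hPH) φ
  rw [sum_congr rfl fun x _ => h1 x, sum_tk (pullK_card φ)]
  have h2 : (pullK k H φ).card ≤ exP P n := le_exP' (hP.pull N n φ H hPH)
  have h3 : ((pullK k H φ).card : ℝ) ≤ exP P n := by exact_mod_cast h2
  exact mul_le_mul_of_nonneg_left h3 (Nat.cast_nonneg _)

end Pool.Agent.H70.GR.KERK
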