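import Pool.Agent.H70.GR.Stm

/-! The maximum densities of a class of k-graphs which is closed under preimages. -/

set_option autoImplicit false
open Finset

namespace Pool.Agent.H70.GR.LIMK

open Pool.Agent.H70.RC Pool.Agent.H70.QR Pool.Agent.H70.GR

variable {k : ℕ} {P : ∀ n : ℕ, Finset (Finset (Fin n)) → Prop}

theorem mem_pullK {n m : ℕ} {H : Finset (Finset (Fin n))} {φ : Fin m → Fin n} {e : Finset (Fin m)} :
    e ∈ pullK k H φ ↔ e.card = k ∧ e.image φ ∈ H := by
  unfold pullK
  rw [mem_filter, mem_powersetCard]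
  simp

theorem card_le (hP : ClsK k P) {n : ℕ} {H : Finset (Finset (Fin n))} (h : P n H) : H.card ≤ n.choose k := by
  have h1 : H ⊆ (univ : Finset (Fin n)).powersetCard k := fun e he => by
    rw [mem_powersetCard]; exact ⟨subset_univ _, hP.uni n H h e he⟩
  have := card_le_card h1
  rwa [card_powersetCard, card_univ, Fintype.card_fin] at this

theorem bdd (hP : ClsK k P) (n : ℕ) : BddAbove {m : ℕ | ∃ H : Finset (Finset (Fin n)), P n H ∧ H.card = m} :=
  ⟨n.choose k, by rintro m ⟨H, hH, rfl⟩; exact card_le hP hH⟩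

theorem le_exP (hP : ClsK k P) {n : ℕ} {H : Finset (Finset (Fin n))} (h : P n H) : H.card ≤ exP P n :=
  le_csSup (bdd hP n) ⟨H, h, rfl⟩

theorem exP_cases (hP : ClsK k P) (n : ℕ) : exP P n = 0 ∨ ∃ H : Finset (Finset (Fin n)), P n H ∧ H.card = exP P n := by
  by_cases h : ∃ H : Finset (Finset (Fin n)), P n H
  · right
    obtain ⟨H, hH⟩ := h
    have h1 : exP P n ∈ {m : ℕ | ∃ H : Finset (Finset (Fin n)), P n H ∧ H.card = m} :=
      Nat.sSup_mem ⟨H.card, H, hH, rfl⟩ (bdd hP n)
    exact h1
  · left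
    have h1 : {m : ℕ | ∃ H : Finset (Finset (Fin n)), P n H ∧ H.card = m} = ∅ := by
      ext m
      simp only [Set.mem_ofPred_eq, Set.mem_empty_iff_false, iff_false]
      rintro ⟨H, hH, -⟩
      exact h ⟨H, hH⟩
    unfold exP
    rw [h1]
    exact csSup_empty

theorem exP_le (hP : ClsK k P) (n : ℕ) : exP P n ≤ n.choose k := by
  rcases exP_cases hP n with h | ⟨H, hH, hc⟩
  · rw [h]; exact Nat.zero_le _
  · rw [← hc]; exact card_le hP hH

/-- deleting a vertex -/
theorem card_pull_succAbove {n : ℕ} {H : Finset (Finset (Fin (n + 1)))} (hH : ∀ e ∈ H, e.card = k)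
    (i : Fin (n + 1)) : (pullK k H i.succAbove).card = (H.filter fun e => i ∉ e).card := by
  refine card_bij (fun e _ => e.image i.succAbove) ?_ ?_ ?_
  · intro e he
    rw [mem_pullK] at he
    rw [mem_filter]
    refine ⟨he.2, ?_⟩
    rw [mem_image]
    rintro ⟨j, _, hj⟩
    exact Fin.succAbove_ne i j hj
  · intro e _ e' _ h
    exact image_injective (Fin.succAbove_right_injective) h
  · intro e he
    rw [mem_filter] at he
    have h1 : (univ.filter fun j => i.succAbove j ∈ e).image i.succAbove = e := by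
      ext x
      rw [mem_image]
      constructor
      · rintro ⟨j, hj, rfl⟩
        exact (mem_filter.1 hj).2
      · intro hx
        have hne : x ≠ i := fun h => he.2 (h ▸ hx)
        obtain ⟨j, rfl⟩ := Fin.exists_succAbove_eq hne
        exact ⟨j, by simpa using hx, rfl⟩
    refine ⟨univ.filter fun j => i.succAbove j ∈ e, ?_, h1⟩
    rw [mem_pullK]
    refine ⟨?_, by rw [h1]; exact he.1⟩
    rw [← card_image_of_injective _ (Fin.succAbove_right_injective (p := i)), h1]
    exact hH e he.1

theorem step (hP : ClsK k P) {n : ℕ} (hn : k ≤ n) :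
    (n + 1 - k) * exP P (n + 1) ≤ (n + 1) * exP P n := by
  rcases exP_cases hP (n + 1) with h | ⟨H, hH, hc⟩
  · rw [h, Nat.mul_zero]; exact Nat.zero_le _
  have huni := hP.uni _ H hH
  have h1 : ∀ i : Fin (n + 1), (H.filter fun e => i ∉ e).card ≤ exP P n := fun i => by
    rw [← card_pull_succAbove huni i]
    exact le_exP hP (hP.pull _ _ _ H hH)
  have h2 : ∑ i : Fin (n + 1), (H.filter fun e => i ∉ e).card ≤ (n + 1) * exP P n := by
    have := sum_le_sum fun i (_ : i ∈ (univ : Finset (Fin (n + 1)))) => h1 i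
    rwa [sum_const, card_univ, Fintype.card_fin, smul_eq_mul] at this
  have h3 : ∑ i : Fin (n + 1), (H.filter fun e => i ∉ e).card = (n + 1 - k) * H.card := by
    have h4 : ∀ i : Fin (n + 1), (H.filter fun e => i ∉ e).card = ∑ e ∈ H, if i ∉ e then 1 else 0 :=
      fun i => by rw [card_filter]
    simp_rw [h4]
    rw [sum_comm]
    have h5 : ∀ e ∈ H, (∑ i : Fin (n + 1), if i ∉ e then 1 else 0) = n + 1 - k := by
      intro e he
      rw [← card_filter]
      have h6 : (univ.filter fun i : Fin (n + 1) => i ∉ e) = eᶜ := by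
        ext x; simp
      rw [h6, card_compl, Fintype.card_fin, huni e he]
    rw [sum_congr rfl h5, sum_const, smul_eq_mul, mul_comm]
  rw [← hc, ← h3]
  exact h2

/-- the density -/
noncomputable def f (k : ℕ) (P : ∀ n : ℕ, Finset (Finset (Fin n)) → Prop) (n : ℕ) : ℝ :=
  (exP P n : ℝ) / (n.choose k : ℝ)

theorem f_succ_le (hP : ClsK k P) {n : ℕ} (hn : k ≤ n) : f k P (n + 1) ≤ f k P n := by
  unfold f
  have hc1 : (0 : ℝ) < ((n + 1).choose k : ℝ) := by exact_mod_cast Nat.choose_pos (by omega)
  have hc2 : (0 : ℝ) < (n.choose k : ℝ) := by exact_mod_cast Nat.choose_pos hn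
  rw [div_le_div_iff₀ hc1 hc2]
  have h1 := step hP hn
  have h2 : (n + 1 - k) * (n + 1).choose k = (n + 1) * n.choose k := by
    rw [mul_comm, ← Nat.choose_mul_succ_eq, mul_comm]
  have hpos : 0 < n + 1 - k := by omega
  have h3 : exP P (n + 1) * n.choose k ≤ exP P n * (n + 1).choose k := by
    refine Nat.le_of_mul_le_mul_left ?_ (Nat.mul_pos hpos (Nat.succ_pos n))
    calc (n + 1 - k) * (n + 1) * (exP P (n + 1) * n.choose k)
        = ((n + 1 - k) * exP P (n + 1)) * ((n + 1) * n.choose k) := by ring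
      _ ≤ ((n + 1) * exP P n) * ((n + 1) * n.choose k) := Nat.mul_le_mul_right _ h1
      _ = ((n + 1) * exP P n) * ((n + 1 - k) * (n + 1).choose k) := by rw [h2]
      _ = (n + 1 - k) * (n + 1) * (exP P n * (n + 1).choose k) := by ring
  exact_mod_cast h3

theorem limk : S_LIMK := by
  intro k _ P hP
  have hanti : Antitone fun n => f k P (n + k) :=
    antitone_nat_of_succ_le fun n => by
      have := f_succ_le hP (n := n + k) (by omega)
      rwa [show n + k + 1 = n + 1 + k by ring] at this
  have hnn : ∀ n, 0 ≤ f k P n := fun n => div_nonneg (Nat.cast_nonneg _) (Nat.cast_nonneg _)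
  have hbb : BddBelow (Set.range fun n => f k P (n + k)) := ⟨0, by rintro _ ⟨n, rfl⟩; exact hnn _⟩
  have hle : ∀ n : ℕ, k ≤ n → (⨅ n, f k P (n + k)) ≤ f k P n := by
    intro n hn
    have := ciInf_le hbb (n - k)
    rwa [Nat.sub_add_cancel hn] at this
  refine ⟨⨅ n, f k P (n + k), le_ciInf fun n => hnn _, ?_, ?_, hle⟩
  · refine (hle k le_rfl).trans ?_
    unfold f
    rw [Nat.choose_self, Nat.cast_one, div_one]
    have := exP_le hP k
    rw [Nat.choose_self] at this
    exact_mod_cast this
  · have h1 : Filter.Tendsto (fun n => f k P n) Filter.atTop (nhds (⨅ n, f k P (n + k))) := by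
      rw [← Filter.tendsto_add_atTop_iff_nat k]
      exact tendsto_atTop_ciInf hanti hbb
    exact h1

end Pool.Agent.H70.GR.LIMK
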