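import Pool.Agent.H70.GR.Stm

/-! Assembly: pair degrees of nearly extremal k-graphs. -/

set_option autoImplicit false
set_option linter.unusedSectionVars false
open Finset Filter Topology

namespace Pool.Agent.H70.GR.FIN

open Pool.Agent.H70.RC Pool.Agent.H70.QR Pool.Agent.H70.GR Pool.Agent.H70.QR.WR

/-- weak regularity, with the block averages -/
theorem wr' {δ : ℝ} (hδ : 0 < δ) : ∃ M : ℕ, ∀ (V : Type) [Fintype V] [Nonempty V] (D : V → V → ℝ),
    (∀ x y, 0 ≤ D x y) → (∀ x y, D x y ≤ 1) →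
    ∃ c : V → Fin M, Cut (fun x y => D x y - dc D c (c x) (c y)) δ := by
  set k : ℕ := ⌈1 / δ ^ 2⌉₊ + 1 with hk
  refine ⟨4 ^ k, ?_⟩
  intro V _ _ D h0 h1
  obtain ⟨ι, i1, i2, c, hcard, h⟩ := iter (V := V) h0 hδ k
  have hNpos : (0 : ℝ) < Fintype.card V := by exact_mod_cast Fintype.card_pos
  have hC : Cut (fun x y => D x y - dc D c (c x) (c y)) δ := by
    rcases h with h | h
    · exact h
    · exfalso
      have h2 := h.trans (En_le h0 h1 c)
      have h3 : (1 : ℝ) / δ ^ 2 < k := by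
        have := Nat.le_ceil (1 / δ ^ 2)
        rw [hk]; push_cast; linarith
      rw [div_lt_iff₀ (by positivity)] at h3
      have h4 : (0 : ℝ) < (Fintype.card V : ℝ) ^ 2 := by positivity
      nlinarith
  obtain ⟨e⟩ : Nonempty (ι ↪ Fin (4 ^ k)) :=
    Function.Embedding.nonempty_of_card_le (by rw [Fintype.card_fin]; exact hcard)
  refine ⟨fun x => e (c x), ?_⟩
  simpa only [dc_emb e e.injective D c] using hC

section cls

variable {V : Type} [Fintype V] {M : ℕ}

theorem av_av (F : V → V → ℝ) : (av fun x => av fun y => F x y) = (∑ x, ∑ y, F x y) / (Fintype.card V : ℝ) ^ 2 := by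
  unfold av
  rw [← sum_div, div_div, sq]

/-- sums of class functions -/
theorem class_sum (c : V → Fin M) (K : Fin M → Fin M → ℝ) (h : V → ℝ) :
    ∑ x, ∑ y, h x * h y * K (c x) (c y) =
      ∑ i, ∑ j, K i j * ((∑ x ∈ univ.filter (fun x => c x = i), h x) * (∑ y ∈ univ.filter (fun y => c y = j), h y)) := by
  have h1 : ∑ x, ∑ y, h x * h y * K (c x) (c y) =
      ∑ i, ∑ x ∈ univ.filter (fun x => c x = i), ∑ j, ∑ y ∈ univ.filter (fun y => c y = j), h x * h y * K (c x) (c y) := by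
    rw [sum_fiberwise]
    refine sum_congr rfl fun x _ => ?_
    rw [sum_fiberwise]
  rw [h1]
  refine sum_congr rfl fun i _ => ?_
  rw [sum_comm]
  refine sum_congr rfl fun j _ => ?_
  rw [sum_mul_sum, mul_sum]
  refine sum_congr rfl fun x hx => ?_
  rw [mul_sum]
  refine sum_congr rfl fun y hy => ?_
  rw [(mem_filter.mp hx).2, (mem_filter.mp hy).2]
  ring

/-- the class average -/
noncomputable def cav (c : V → Fin M) (f : V → ℝ) (i : Fin M) : ℝ :=
  (∑ x ∈ univ.filter (fun x => c x = i), f x) / (univ.filter (fun x => c x = i)).card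

theorem cav_abs (c : V → Fin M) {f : V → ℝ} (hf : ∀ x, |f x| ≤ 1) (i : Fin M) : |cav c f i| ≤ 1 := by
  unfold cav
  rw [abs_div, Nat.abs_cast]
  refine div_le_one_of_le₀ ?_ (Nat.cast_nonneg _)
  refine (abs_sum_le_sum_abs _ _).trans ?_
  calc _ ≤ ∑ x ∈ univ.filter (fun x => c x = i), (1 : ℝ) := sum_le_sum fun x _ => hf x
    _ = _ := by simp

theorem cav_sum (c : V → Fin M) (f : V → ℝ) (i : Fin M) :
    ∑ x ∈ univ.filter (fun x => c x = i), cav c f (c x) = ∑ x ∈ univ.filter (fun x => c x = i), f x := by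
  have h1 : ∑ x ∈ univ.filter (fun x => c x = i), cav c f (c x) =
      ∑ x ∈ univ.filter (fun x => c x = i), cav c f i :=
    sum_congr rfl fun x hx => by rw [(mem_filter.mp hx).2]
  rw [h1, sum_const, nsmul_eq_mul]
  unfold cav
  by_cases hi : (univ.filter (fun x => c x = i)) = ∅
  · rw [hi]; simp
  · have h1 : ((univ.filter (fun x => c x = i)).card : ℝ) ≠ 0 := by
      exact_mod_cast (card_pos.mpr (nonempty_iff_ne_empty.mpr hi)).ne'
    field_simp

/-- from class functions to all functions -/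
theorem psd_class [Nonempty V] {c : V → Fin M} {a ξ : ℝ} {D : V → V → ℝ}
    (h : ∀ f : V → ℝ, (∀ x, |f x| ≤ 1) → -ξ ≤ av fun u => av fun v => f u * f v * (a - D u v)) :
    ∀ f : V → ℝ, (∀ x, |f x| ≤ 1) → -ξ ≤ av fun u => av fun v => f u * f v * (a - dc D c (c u) (c v)) := by
  intro f hf
  have h1 := h (fun x => cav c f (c x)) (fun x => cav_abs c hf _)
  have h2 : (av fun u => av fun v => f u * f v * (a - dc D c (c u) (c v)))
      = av fun u => av fun v => cav c f (c u) * cav c f (c v) * (a - D u v) := by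
    rw [av_av, av_av]
    congr 1
    rw [class_sum c (fun i j => a - dc D c i j) f]
    have h3 := class_sum c (fun i j => a - dc D c i j) (fun x => cav c f (c x))
    simp only [cav_sum] at h3
    rw [← h3]
    have h4 := orth D c (fun i j => cav c f i * cav c f j)
    have h5 : ∑ x, ∑ y, cav c f (c x) * cav c f (c y) * (a - dc D c (c x) (c y)) -
        ∑ x, ∑ y, cav c f (c x) * cav c f (c y) * (a - D x y) =
        ∑ x, ∑ y, (D x y - dc D c (c x) (c y)) * (cav c f (c x) * cav c f (c y)) := by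
      simp only [← sum_sub_distrib]
      exact sum_congr rfl fun x _ => sum_congr rfl fun y _ => by ring
    rw [h4] at h5
    linarith
  rw [h2]
  exact h1

end cls

section cod

variable {V : Type} [Fintype V] [Nonempty V] {m : ℕ} {χ : (Fin (m + 2) → V) → ℝ}

theorem cod2_nonneg (h : KerK χ) (x y : V) : 0 ≤ cod2 χ x y := av_nonneg fun _ => h.nonneg _
theorem cod2_le_one (h : KerK χ) (x y : V) : cod2 χ x y ≤ 1 := av_le_of_le fun _ => h.le_one _

theorem cod2_symm (h : KerK χ) (x y : V) : cod2 χ x y = cod2 χ y x := by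
  unfold cod2
  refine av_congr fun z => ?_
  have := h.symm (Equiv.swap 0 1) (Fin.cons y (Fin.cons x z : Fin (m + 1) → V) : Fin (m + 2) → V)
  rw [← this]
  congr 1
  funext i
  refine Fin.cases ?_ (fun j => ?_) i
  · simp [Equiv.swap_apply_left, Fin.cons_zero]
  · refine Fin.cases ?_ (fun l => ?_) j
    · have : (Fin.succ (0 : Fin (m + 1)) : Fin (m + 2)) = 1 := rfl
      rw [Function.comp_apply, this, Equiv.swap_apply_right]
      rfl
    · rw [Function.comp_apply, Equiv.swap_apply_of_ne_of_ne]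
      · simp [Fin.cons_succ]
      · exact Fin.succ_ne_zero _
      · intro h
        have h2 : (Fin.succ (Fin.succ l) : Fin (m + 2)) = Fin.succ 0 := h
        exact Fin.succ_ne_zero _ (Fin.succ_injective _ h2)

end cod

theorem descFactorial_eq (n k : ℕ) : (n.descFactorial k : ℝ) = (k.factorial : ℝ) * (n.choose k : ℝ) := by
  exact_mod_cast Nat.descFactorial_eq_factorial_mul_choose n k

/-- weighted densities, pairs -/
theorem weighted (hTEL : S_TELK) (hKER : S_KERK) {k : ℕ} {P : ∀ n : ℕ, Finset (Finset (Fin n)) → Prop}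
    (hP : ClsK k P) {a : ℝ} (ha : 0 ≤ a)
    (hlim : Tendsto (fun n : ℕ => (exP P n : ℝ) / (n.choose k : ℝ)) atTop (𝓝 a)) {η : ℝ} (hη : 0 < η) :
    ∃ δ : ℝ, 0 < δ ∧ ∀ N : ℕ, 1 ≤ N → ∀ H : Finset (Finset (Fin N)), P N H →
      ∀ φ : Fin N → Fin N → ℝ, (∀ x y, φ x y = φ y x) → (∀ x y, |φ x y| ≤ 1) → Cut φ δ →
      ∀ s : ℝ, 0 ≤ s → s ≤ 1 → TWK (TK k H) φ s ≤ a + η := by
  have h1 : ∀ᶠ n : ℕ in atTop, (exP P n : ℝ) / (n.choose k : ℝ) < a + η / 2 :=
    (tendsto_order.1 hlim).2 _ (by linarith)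
  obtain ⟨n, hn1, hn3⟩ := (h1.and (eventually_ge_atTop (k + 1))).exists
  set C : ℝ := (n : ℝ) ^ 2 * 2 ^ (n ^ 2) with hC
  have hC0 : 0 < C := by
    have : (0 : ℝ) < n := by exact_mod_cast (by omega : 0 < n)
    positivity
  refine ⟨η / (2 * C * (a + η + 2)), by positivity, ?_⟩
  intro N hN H hH φ hsym hφ hcut s hs0 hs1
  haveI : Nonempty (Fin N) := ⟨⟨0, by omega⟩⟩
  set δ := η / (2 * C * (a + η + 2)) with hδ
  have hδ0 : 0 < δ := by positivity
  have hker : KerK (TK k H) := hKER.1 k N H (hP.uni N H hH)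
  have h2 := hTEL (Fin N) k (TK k H) hker n ((k.factorial : ℝ) * exP P n) (by omega) (by positivity)
    (hKER.2.2.1 k P hP N H hH n) φ hsym hφ δ hδ0.le hcut s hs0 hs1
  have hch : (0 : ℝ) < (n.choose k : ℝ) := by exact_mod_cast Nat.choose_pos (by omega)
  have hkf : (0 : ℝ) < (k.factorial : ℝ) := by exact_mod_cast Nat.factorial_pos k
  have h3 : (exP P n : ℝ) ≤ (a + η / 2) * (n.choose k : ℝ) := by
    rw [div_lt_iff₀ hch] at hn1
    exact hn1.le
  rw [descFactorial_eq] at h2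
  have hCδ : 0 ≤ C * δ := by positivity
  have h4 : (k.factorial : ℝ) * (exP P n : ℝ) * (1 + C * δ) ≤
      (k.factorial : ℝ) * (n.choose k : ℝ) * ((a + η / 2) * (1 + C * δ)) := by
    have h5 : (k.factorial : ℝ) * (exP P n : ℝ) ≤ (k.factorial : ℝ) * ((a + η / 2) * (n.choose k : ℝ)) :=
      mul_le_mul_of_nonneg_left h3 hkf.le
    have h6 := mul_le_mul_of_nonneg_right h5 (by linarith : (0 : ℝ) ≤ 1 + C * δ)
    calc _ ≤ _ := h6
      _ = _ := by ring
  have h5 : (k.factorial : ℝ) * (n.choose k : ℝ) * (TWK (TK k H) φ s - C * δ) ≤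
      (k.factorial : ℝ) * (n.choose k : ℝ) * ((a + η / 2) * (1 + C * δ)) := h2.trans h4
  have h6 : TWK (TK k H) φ s - C * δ ≤ (a + η / 2) * (1 + C * δ) :=
    le_of_mul_le_mul_left h5 (by positivity)
  have h7 : C * δ * (a + η + 2) = η / 2 := by
    rw [hδ]
    field_simp
  nlinarith

/-- weighted densities, vertices -/
theorem weightedV (hVW : S_VWK) (hKER : S_KERK) {k : ℕ} {P : ∀ n : ℕ, Finset (Finset (Fin n)) → Prop}
    (hP : ClsK k P) {a : ℝ}
    (hlim : Tendsto (fun n : ℕ => (exP P n : ℝ) / (n.choose k : ℝ)) atTop (𝓝 a)) {N : ℕ} (hN : 1 ≤ N)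
    {H : Finset (Finset (Fin N))} (hH : P N H) {g : Fin N → ℝ} (hg : ∀ x, |g x| ≤ 1) (hg0 : av g = 0) {s : ℝ}
    (hs0 : 0 ≤ s) (hs1 : s ≤ 1) : VWK (TK k H) g s ≤ a := by
  haveI : Nonempty (Fin N) := ⟨⟨0, by omega⟩⟩
  refine ge_of_tendsto hlim ?_
  filter_upwards [eventually_ge_atTop k] with n hn
  have hker : KerK (TK k H) := hKER.1 k N H (hP.uni N H hH)
  have h2 := hVW (Fin N) k (TK k H) hker n ((k.factorial : ℝ) * exP P n) (hKER.2.2.1 k P hP N H hH n) g hg hg0 s hs0 hs1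
  have hch : (0 : ℝ) < (n.choose k : ℝ) := by exact_mod_cast Nat.choose_pos hn
  have hkf : (0 : ℝ) < (k.factorial : ℝ) := by exact_mod_cast Nat.factorial_pos k
  rw [descFactorial_eq] at h2
  rw [le_div_iff₀ hch]
  have h3 : (k.factorial : ℝ) * (VWK (TK k H) g s * (n.choose k : ℝ)) ≤ (k.factorial : ℝ) * (exP P n : ℝ) := by
    calc _ = (k.factorial : ℝ) * (n.choose k : ℝ) * VWK (TK k H) g s := by ring
      _ ≤ _ := h2
  exact le_of_mul_le_mul_left h3 hkf

theorem cut_neg {V : Type} [Fintype V] {φ : V → V → ℝ} {δ : ℝ} (hc : Cut φ δ) : Cut (fun x y => - φ x y) δ := by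
  intro A B
  simp only [sum_neg_distrib, abs_neg]
  exact hc A B

theorem av_cons {V : Type} [Fintype V] {n : ℕ} (F : (Fin (n + 1) → V) → ℝ) :
    av F = av fun x => av fun z : Fin n → V => F (Fin.cons x z : Fin (n + 1) → V) := by
  rw [← av_prod (fun (x : V) (z : Fin n → V) => F (Fin.cons x z : Fin (n + 1) → V))]
  exact (av_equiv (Fin.consEquiv (fun _ : Fin (n + 1) => V)) F).symm

theorem av_cod2 {V : Type} [Fintype V] {m : ℕ} (χ : (Fin (m + 2) → V) → ℝ) :
    av χ = av fun x => av fun y => cod2 χ x y := by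
  rw [av_cons]
  refine av_congr fun x => ?_
  rw [av_cons]
  rfl

/-- **The averaged form.** -/
theorem gram (hTEL : S_TELK) (hVW : S_VWK) (hEXP : S_EXPK) (hPSD : S_PSDK) (hLA : S_LAK) (hKER : S_KERK)
    {m : ℕ} {P : ∀ n : ℕ, Finset (Finset (Fin n)) → Prop} (hP : ClsK (m + 2) P) {a : ℝ} (ha : 0 ≤ a) (ha1 : a ≤ 1)
    (hlim : Tendsto (fun n : ℕ => (exP P n : ℝ) / (n.choose (m + 2) : ℝ)) atTop (𝓝 a)) {η : ℝ} (hη : 0 < η) :
    ∃ δ : ℝ, 0 < δ ∧ ∀ N : ℕ, 1 ≤ N → ∀ H : Finset (Finset (Fin N)), P N H → a - δ ≤ av (TK (m + 2) H) →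
      ∀ D : ℕ, 1 ≤ D → ∃ u : Fin N → Fin D → ℝ,
        (av fun x => ∑ i, u x i ^ 2) ≤ a + η ∧
        (∑ i, (av fun x => u x i) ^ 2) ≤ η ∧
        (av fun x => av fun y => (a - cod2 (TK (m + 2) H) x y - ∑ i, u x i * u y i) ^ 2) ≤ a ^ 2 / (4 * D) + η := by
  -- parameters
  set η' : ℝ := min η 1 with hη'
  have hη'0 : 0 < η' := lt_min hη one_pos
  have hη'1 : η' ≤ 1 := min_le_right _ _
  have hη'η : η' ≤ η := min_le_left _ _
  set τ : ℝ := η' / 8 with hτ
  have hτ0 : 0 < τ := by positivity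
  set η₁ : ℝ := η' ^ 2 / 64 with hη₁
  have hη₁0 : 0 < η₁ := by positivity
  set B : ℝ := 2 + 2 ^ ((m + 2) ^ 2) with hB
  have hB0 : 0 < B := by positivity
  have hB1 : 1 ≤ B := by
    have : (0 : ℝ) < 2 ^ ((m + 2) ^ 2) := by positivity
    linarith
  set η₀ : ℝ := (η₁ / B) ^ 2 with hη₀
  have hη₀0 : 0 < η₀ := by positivity
  have hη₁1 : η₁ ≤ 1 := by
    rw [hη₁]
    nlinarith
  have hη₀1 : η₀ ≤ 1 := by
    rw [hη₀]
    have : η₁ / B ≤ 1 := by
      rw [div_le_one hB0]
      linarith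
    have h0 : 0 ≤ η₁ / B := by positivity
    nlinarith
  have hsq : B * √η₀ = η₁ := by
    rw [hη₀, Real.sqrt_sq (by positivity)]
    field_simp
  obtain ⟨δ₁, hδ₁, hW⟩ := weighted hTEL hKER hP ha hlim hη₀0
  obtain ⟨M, hM⟩ := wr' hδ₁
  obtain ⟨ξ, hξ, hL⟩ := hLA M (η' / 4) (by positivity)
  set t : ℝ := min 1 (ξ / 2 ^ (m + 7)) with ht
  have ht0 : 0 < t := lt_min one_pos (by positivity)
  have ht1 : t ≤ 1 := min_le_left _ _
  have ht2 : 2 ^ (m + 7) * t ≤ ξ := by
    have : t ≤ ξ / 2 ^ (m + 7) := min_le_right _ _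
    rw [le_div_iff₀ (by positivity)] at this
    linarith
  refine ⟨min η₀ (min (t ^ 3) (η' / 2)), by positivity, ?_⟩
  intro N hN H hH hd D hD
  haveI : Nonempty (Fin N) := ⟨⟨0, by omega⟩⟩
  set χ := TK (m + 2) H with hχdef
  have hker : KerK χ := hKER.1 (m + 2) N H (hP.uni N H hH)
  have hd0 : a - η₀ ≤ av χ := by
    have := min_le_left η₀ (min (t ^ 3) (η' / 2))
    linarith
  have hd1 : a - t ^ 3 ≤ av χ := by
    have := (min_le_right η₀ (min (t ^ 3) (η' / 2))).trans (min_le_left _ _)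
    linarith
  have hd2 : a - η' / 2 ≤ av χ := by
    have := (min_le_right η₀ (min (t ^ 3) (η' / 2))).trans (min_le_right _ _)
    linarith
  obtain ⟨c, hcut⟩ := hM (Fin N) (cod2 χ) (cod2_nonneg hker) (cod2_le_one hker)
  set d := dc (cod2 χ) c with hddef
  have d0 : ∀ i j, 0 ≤ d i j := fun i j => dc_nonneg (cod2_nonneg hker) i j
  have d1 : ∀ i j, d i j ≤ 1 := fun i j => dc_le_one (cod2_le_one hker) i j
  have ds : ∀ i j, d i j = d j i := fun i j => dc_symm (cod2_symm hker) i j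
  -- the partition
  set φ : Fin N → Fin N → ℝ := fun x y => cod2 χ x y - d (c x) (c y) with hφdef
  have hφs : ∀ x y, φ x y = φ y x := fun x y => by
    rw [hφdef]
    simp only
    rw [cod2_symm hker, ds]
  have hφ1 : ∀ x y, |φ x y| ≤ 1 := by
    intro x y
    rw [hφdef, abs_le]
    simp only
    constructor <;> linarith [cod2_nonneg hker x y, cod2_le_one hker x y, d0 (c x) (c y), d1 (c x) (c y)]
  have hLL := hEXP (Fin N) m χ hker a η₀ hη₀0 hη₀1 hd0 φ hφs hφ1 (fun s hs0 hs1 => ⟨hW N hN H hH φ hφs hφ1 hcut s hs0 hs1,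
    hW N hN H hH (fun x y => - φ x y) (fun x y => by show - φ x y = - φ y x; rw [hφs])
      (fun x y => by rw [abs_neg]; exact hφ1 x y) (cut_neg hcut) s hs0 hs1⟩)
  rw [← hB, hsq] at hLL
  have hE1 : (av fun x => av fun y => (φ x y) ^ 2) ≤ η₁ := by
    have h1 : (av fun x => av fun y => (φ x y) ^ 2) = (av fun x => av fun y => φ x y * cod2 χ x y) := by
      have h2 := orth (cod2 χ) c d
      rw [av_av, av_av]
      congr 1
      have h3 : ∑ x, ∑ y, (φ x y) ^ 2 - ∑ x, ∑ y, φ x y * cod2 χ x y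
          = - ∑ x, ∑ y, (cod2 χ x y - dc (cod2 χ) c (c x) (c y)) * d (c x) (c y) := by
        simp only [← sum_sub_distrib, ← sum_neg_distrib]
        refine sum_congr rfl fun x _ => sum_congr rfl fun y _ => ?_
        rw [hφdef]
        simp only [← hddef]
        ring
      rw [h2] at h3
      linarith
    rw [h1]
    exact (abs_le.1 hLL).2
  -- positive semidefinite
  have hpsd := hPSD (Fin N) m χ hker a t ht0 ht1 hd1 (fun g hg hg0 s hs0 hs1 => by
    have := weightedV hVW hKER hP hlim hN hH hg hg0 hs0 hs1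
    have : 0 ≤ t ^ 3 := by positivity
    linarith)
  have hpsd' : ∀ f : Fin N → ℝ, (∀ x, |f x| ≤ 1) → -ξ ≤ av fun u => av fun v => f u * f v * (a - cod2 χ u v) :=
    fun f hf => le_trans (by linarith) (hpsd f hf)
  obtain ⟨u, hu1, hu2, hu3⟩ := hL (Fin N) a ha ha1 c d d0 d1 ds (psd_class hpsd') D hD
  have hdav : (av fun x => av fun y => (a - d (c x) (c y))) = a - av fun x => av fun y => cod2 χ x y := by
    have h2 := orth (cod2 χ) c (fun _ _ => 1)
    have h3 : (av fun x => av fun y => (a - d (c x) (c y))) = (av fun x => av fun y => (a - cod2 χ x y)) := by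
      rw [av_av, av_av]
      congr 1
      have h4 : ∑ x, ∑ y, (a - d (c x) (c y)) - ∑ x, ∑ y, (a - cod2 χ x y)
          = ∑ x, ∑ y, (cod2 χ x y - dc (cod2 χ) c (c x) (c y)) * 1 := by
        simp only [← sum_sub_distrib]
        exact sum_congr rfl fun x _ => sum_congr rfl fun y _ => by rw [← hddef]; ring
      rw [h2] at h4
      linarith
    rw [h3]
    simp only [av_sub, av_const]
  have hcodav : (av fun x => av fun y => cod2 χ x y) = av χ := (av_cod2 χ).symm
  refine ⟨u, by linarith, ?_, ?_⟩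
  · rw [hdav, hcodav] at hu2
    linarith
  · -- combine
    have hpt : ∀ x y, (a - cod2 χ x y - ∑ i, u x i * u y i) ^ 2 ≤
        (1 + 1 / τ) * (φ x y) ^ 2 + (1 + τ) * (a - d (c x) (c y) - ∑ i, u x i * u y i) ^ 2 := by
      intro x y
      set p := φ x y with hp
      set q := a - d (c x) (c y) - ∑ i, u x i * u y i with hq
      have e : a - cod2 χ x y - ∑ i, u x i * u y i = q - p := by
        rw [hq, hp, hφdef]
        simp only
        ring
      rw [e]
      have h1 : 0 ≤ (p + τ * q) ^ 2 / τ := by positivity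
      have h2 : (p + τ * q) ^ 2 / τ = p ^ 2 / τ + 2 * p * q + τ * q ^ 2 := by
        field_simp
        ring
      have h3 : (1 + 1 / τ) * p ^ 2 = p ^ 2 + p ^ 2 / τ := by ring
      have h4 : (q - p) ^ 2 = q ^ 2 - 2 * p * q + p ^ 2 := by ring
      have h5 : (1 + τ) * q ^ 2 = q ^ 2 + τ * q ^ 2 := by ring
      rw [h2] at h1
      rw [h3, h4, h5]
      linarith
    have h1 : (av fun x => av fun y => (a - cod2 χ x y - ∑ i, u x i * u y i) ^ 2) ≤
        (1 + 1 / τ) * (av fun x => av fun y => (φ x y) ^ 2) +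
        (1 + τ) * (av fun x => av fun y => (a - d (c x) (c y) - ∑ i, u x i * u y i) ^ 2) := by
      simp only [← av_mul_left, ← av_add]
      exact av_mono fun x => av_mono fun y => hpt x y
    refine h1.trans ?_
    have hD0 : (1 : ℝ) ≤ D := by exact_mod_cast hD
    have h2 : a ^ 2 / (4 * D) ≤ 1 / 4 := by
      rw [div_le_iff₀ (by positivity)]
      nlinarith
    have h3 : (1 + 1 / τ) * (av fun x => av fun y => (φ x y) ^ 2) ≤ (1 + 1 / τ) * η₁ :=
      mul_le_mul_of_nonneg_left hE1 (by positivity)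
    have h4 : (1 + 1 / τ) * η₁ ≤ η' / 4 := by
      have h5 : 1 / τ * η₁ = η' / 8 := by
        rw [hτ, hη₁]
        field_simp
        ring
      have h6 : η₁ ≤ η' / 64 := by
        rw [hη₁]
        nlinarith
      have h7 : (1 + 1 / τ) * η₁ = η₁ + 1 / τ * η₁ := by ring
      rw [h7, h5]
      linarith
    have h5 : (1 + τ) * (av fun x => av fun y => (a - d (c x) (c y) - ∑ i, u x i * u y i) ^ 2) ≤
        (1 + τ) * (a ^ 2 / (4 * D) + η' / 4) := mul_le_mul_of_nonneg_left hu3 (by positivity)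
    have h6 : (1 + τ) * (a ^ 2 / (4 * D) + η' / 4) ≤ a ^ 2 / (4 * D) + η' / 4 + τ := by
      have : τ * (a ^ 2 / (4 * D) + η' / 4) ≤ τ * 1 := mul_le_mul_of_nonneg_left (by linarith) hτ0.le
      linarith
    have h7 : τ = η' / 8 := hτ
    linarith

end Pool.Agent.H70.GR.FIN
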