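import Pool.Agent.H70.GR.Stm

/-! FREEK: the complete-k-graph-free k-graphs are closed under preimages. -/

set_option autoImplicit false
open Finset

namespace Pool.Agent.H70.GR.FREEK

open Pool.Agent.H70.RC Pool.Agent.H70.QR Pool.Agent.H70.GR

theorem mem_pullK {k n m : ℕ} {H : Finset (Finset (Fin n))} {φ : Fin m → Fin n} {e : Finset (Fin m)} :
    e ∈ pullK k H φ ↔ e.card = k ∧ e.image φ ∈ H := by
  unfold pullK
  rw [mem_filter, mem_powersetCard]
  simp

theorem freek : S_FREEK := by
  intro k r hk hr
  refine ⟨fun _ _ h => h.1, fun n m φ H hH => ?_⟩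
  refine ⟨fun e he => (mem_pullK.1 he).1, fun S hS => ?_⟩
  by_contra hcon
  push Not at hcon
  have hinj : Set.InjOn φ S := by
    intro a ha b hb hab
    by_contra hne
    obtain ⟨e, he, heS, hec⟩ := Finset.exists_subsuperset_card_eq (s := {a, b}) (t := S) (n := k)
      (by intro x hx; simp only [mem_insert, mem_singleton] at hx; rcases hx with rfl | rfl <;> assumption)
      (by rw [card_pair hne]; omega) (by omega)
    have h1 := (mem_pullK.1 (hcon e heS hec)).2
    have h2 := hH.1 _ h1
    have h3 : (e.image φ).card = e.card := by rw [h2, hec]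
    exact hne ((card_image_iff.1 h3) (he (by simp)) (he (by simp)) hab)
  obtain ⟨e, he, hec, heH⟩ := hH.2 (S.image φ) (by rw [card_image_of_injOn hinj, hS])
  obtain ⟨e', he', rfl⟩ := subset_image_iff.1 he
  have hinj' : Set.InjOn φ e' := fun a ha b hb => hinj (he' ha) (he' hb)
  have h4 : e'.card = k := by rw [← card_image_of_injOn hinj', hec]
  exact heH (mem_pullK.1 (hcon e' he' h4)).2

end Pool.Agent.H70.GR.FREEK
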