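import Pool.Agent.H70.GR.Stm

/-! LAK: nearly positive semidefinite step kernels are nearly Gram matrices in dimension `D`. -/

set_option autoImplicit false
open Finset Pool.Agent.H70.RC

namespace Pool.Agent.H70.GR.LAK

/-- sums over `Fin D` of functions on an initial segment of `Fin M` -/
theorem sumD (M D : ℕ) (G : Fin M → ℝ) :
    ∑ l : Fin D, (if h : (l : ℕ) < M then G ⟨l, h⟩ else 0) =
      ∑ l ∈ univ.filter (fun l : Fin M => (l : ℕ) < D), G l := by
  set G' : ℕ → ℝ := fun n => if h : n < M then G ⟨n, h⟩ else 0 with hG'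
  have h1 : ∑ l : Fin D, (if h : (l : ℕ) < M then G ⟨l, h⟩ else 0) = ∑ n ∈ range D, G' n :=
    Fin.sum_univ_eq_sum_range G' D
  have h2 : ∑ l ∈ univ.filter (fun l : Fin M => (l : ℕ) < D), G l =
      ∑ n ∈ range M, (if n < D then G' n else 0) := by
    rw [sum_filter, ← Fin.sum_univ_eq_sum_range (fun n => if n < D then G' n else 0) M]
    apply sum_congr rfl
    intro l _
    simp [hG']
  rw [h1, h2, ← sum_filter]
  have h3 : ∑ n ∈ range D, G' n = ∑ n ∈ (range D).filter (· < M), G' n := by
    rw [sum_filter_of_ne]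
    intro n _ hn
    by_contra hc
    exact hn (by simp [hG', hc])
  rw [h3]
  apply sum_congr _ (fun _ _ => rfl)
  ext n
  simp only [mem_filter, mem_range]
  tauto

/-- the spectral theorem in coordinates, with sorted eigenvalues -/
theorem spec (M : ℕ) (B : Fin M → Fin M → ℝ) (hB : ∀ i j, B i j = B j i) :
    ∃ (lam : Fin M → ℝ) (e : Fin M → Fin M → ℝ), Antitone lam ∧
      (∀ l m, ∑ i, e l i * e m i = if l = m then 1 else 0) ∧
      (∀ i j, ∑ l, e l i * e l j = if i = j then 1 else 0) ∧
      (∀ i j, B i j = ∑ l, lam l * e l i * e l j) ∧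
      (∀ l i, ∑ j, B i j * e l j = lam l * e l i) ∧
      ∑ l, lam l = ∑ i, B i i := by
  classical
  let A : Matrix (Fin M) (Fin M) ℝ := Matrix.of B
  have hA : A.IsHermitian := by
    ext i j
    simp only [A, Matrix.conjTranspose_apply, Matrix.of_apply, star_trivial]
    exact hB j i
  let σ : Equiv.Perm (Fin M) := Tuple.sort (fun l => - hA.eigenvalues l)
  have hσ : Monotone ((fun l => - hA.eigenvalues l) ∘ σ) := Tuple.monotone_sort _
  let lam : Fin M → ℝ := fun l => hA.eigenvalues (σ l)
  let e : Fin M → Fin M → ℝ := fun l i => hA.eigenvectorBasis (σ l) i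
  have h1 : ∀ l m, ∑ i, e l i * e m i = if l = m then 1 else 0 := by
    intro l m
    have h := (orthonormal_iff_ite.1 hA.eigenvectorBasis.orthonormal) (σ m) (σ l)
    rw [PiLp.inner_apply] at h
    simp only [RCLike.inner_apply, conj_trivial] at h
    have h' : ∑ i, e l i * e m i = if σ m = σ l then 1 else 0 := h
    rw [h']
    by_cases hlm : l = m
    · rw [if_pos hlm, if_pos (by rw [hlm])]
    · rw [if_neg hlm, if_neg (fun h => hlm (σ.injective h).symm)]
  have h2 : ∀ i j, ∑ l, e l i * e l j = if i = j then 1 else 0 := by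
    intro i j
    have h := hA.eigenvectorBasis.sum_inner_mul_inner (EuclideanSpace.single i (1 : ℝ))
      (EuclideanSpace.single j (1 : ℝ))
    simp only [EuclideanSpace.inner_single_left, EuclideanSpace.inner_single_right, map_one,
      one_mul, conj_trivial] at h
    rw [← Equiv.sum_comp σ] at h
    have h' : ∑ l, e l i * e l j = (EuclideanSpace.single i (1 : ℝ)) j := h
    rw [h']
    by_cases hij : i = j
    · subst hij; simp
    · rw [if_neg hij]
      simp [Ne.symm hij]
  have h3 : ∀ l i, ∑ j, B i j * e l j = lam l * e l i := by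
    intro l i
    have h := hA.mulVec_eigenvectorBasis (σ l)
    have h' := congrFun h i
    simp only [Matrix.mulVec, dotProduct, Pi.smul_apply, smul_eq_mul] at h'
    exact h'
  have h4 : ∀ i j, B i j = ∑ l, lam l * e l i * e l j := by
    intro i j
    calc B i j = ∑ k, B i k * (if k = j then 1 else 0) := by simp
      _ = ∑ k, B i k * ∑ l, e l k * e l j := by
          apply sum_congr rfl; intro k _; rw [h2]
      _ = ∑ l, (∑ k, B i k * e l k) * e l j := by
          simp only [mul_sum, sum_mul]
          rw [sum_comm]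
          apply sum_congr rfl; intro l _
          apply sum_congr rfl; intro k _
          ring
      _ = ∑ l, lam l * e l i * e l j := by
          apply sum_congr rfl; intro l _; rw [h3]
  refine ⟨lam, e, ?_, h1, h2, h4, h3, ?_⟩
  · intro l m hlm
    have := hσ hlm
    simp only [Function.comp] at this
    exact neg_le_neg_iff.1 this
  · calc ∑ l, lam l = ∑ l, lam l * ∑ i, e l i * e l i := by
          apply sum_congr rfl; intro l _; rw [h1, if_pos rfl, mul_one]
      _ = ∑ i, ∑ l, lam l * e l i * e l i := by
          simp only [mul_sum]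
          rw [sum_comm]
          apply sum_congr rfl; intro l _
          apply sum_congr rfl; intro k _
          ring
      _ = ∑ i, B i i := by
          apply sum_congr rfl; intro i _; rw [h4]

/-- the Frobenius norm -/
theorem frob {M : ℕ} (e : Fin M → Fin M → ℝ)
    (h1 : ∀ l m, ∑ i, e l i * e m i = if l = m then 1 else 0) (ν : Fin M → ℝ) :
    ∑ i, ∑ j, (∑ l, ν l * e l i * e l j) ^ 2 = ∑ l, ν l ^ 2 := by
  have e1 : ∀ i j, (∑ l, ν l * e l i * e l j) ^ 2 =
      ∑ l, ∑ m, ν l * ν m * (e l i * e m i) * (e l j * e m j) := by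
    intro i j
    rw [sq, sum_mul_sum]
    apply sum_congr rfl; intro l _
    apply sum_congr rfl; intro m _
    ring
  simp only [e1]
  calc ∑ i, ∑ j, ∑ l, ∑ m, ν l * ν m * (e l i * e m i) * (e l j * e m j)
      = ∑ l, ∑ m, ∑ i, ∑ j, ν l * ν m * (e l i * e m i) * (e l j * e m j) := by
        rw [sum_congr rfl fun i _ => sum_comm, sum_comm]
        apply sum_congr rfl; intro l _
        rw [sum_congr rfl fun i _ => sum_comm, sum_comm]
    _ = ∑ l, ∑ m, ν l * ν m * (∑ i, e l i * e m i) * (∑ j, e l j * e m j) := by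
        apply sum_congr rfl; intro l _
        apply sum_congr rfl; intro m _
        rw [mul_assoc, sum_mul_sum, mul_sum]
        apply sum_congr rfl; intro i _
        rw [mul_sum]
        apply sum_congr rfl; intro j _
        ring
    _ = ∑ l, ν l ^ 2 := by
        apply sum_congr rfl; intro l _
        simp only [h1]
        rw [sum_eq_single l]
        · simp; ring
        · intro m _ hm
          rw [if_neg (Ne.symm hm)]; ring
        · intro h; exact absurd (mem_univ _) h

theorem tail {M D : ℕ} (hD : 1 ≤ D) (lp : Fin M → ℝ) (h0 : ∀ l, 0 ≤ lp l) (hanti : Antitone lp) :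
    ∑ l : Fin M, (if (l : ℕ) < D then 0 else lp l ^ 2) ≤ (∑ l, lp l) ^ 2 / (4 * D) := by
  have hDp : (0 : ℝ) < D := by exact_mod_cast hD
  by_cases hDM : D < M
  · set m := lp ⟨D, hDM⟩ with hm
    have hm0 : 0 ≤ m := h0 _
    have h1 : ∑ l : Fin M, (if (l : ℕ) < D then 0 else lp l ^ 2) ≤
        ∑ l : Fin M, m * (lp l - if (l : ℕ) < D then lp l else 0) := by
      apply sum_le_sum
      intro l _
      split_ifs with h
      · rw [sub_self, mul_zero]
      · rw [sub_zero, sq]
        exact mul_le_mul_of_nonneg_right (hanti (Fin.mk_le_of_le_val (not_lt.1 h))) (h0 l)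
    have h2 : (D : ℝ) * m ≤ ∑ l : Fin M, (if (l : ℕ) < D then lp l else 0) := by
      have e1 := sumD M D (fun _ => m)
      have e2 : ∑ l : Fin D, (if h : (l : ℕ) < M then m else 0) = D * m := by
        rw [sum_congr rfl (fun l _ => dif_pos (l.2.trans hDM)), sum_const, card_univ,
          Fintype.card_fin, nsmul_eq_mul]
      rw [e2] at e1
      rw [e1, sum_filter]
      apply sum_le_sum
      intro l _
      split_ifs with h
      · exact hanti (by rw [Fin.le_def]; exact h.le)
      · exact le_rfl
    have h3 : ∑ l : Fin M, m * (lp l - if (l : ℕ) < D then lp l else 0) ≤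
        m * (∑ l, lp l - D * m) := by
      rw [← mul_sum, sum_sub_distrib]
      exact mul_le_mul_of_nonneg_left (by linarith) hm0
    have h4 : m * (∑ l, lp l - D * m) ≤ (∑ l, lp l) ^ 2 / (4 * D) := by
      rw [le_div_iff₀ (by positivity)]
      nlinarith [sq_nonneg (∑ l, lp l - 2 * (D * m))]
    linarith
  · have h1 : ∑ l : Fin M, (if (l : ℕ) < D then 0 else lp l ^ 2) = 0 := by
      apply sum_eq_zero
      intro l _
      rw [if_pos (l.2.trans_le (not_lt.1 hDM))]
    rw [h1]
    positivity

theorem lak : S_LAK := by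
  intro M η hη
  have hM0 : (0 : ℝ) ≤ M := Nat.cast_nonneg M
  set t : ℝ := min 1 (η / (M ^ 2 + 2 * M + 2)) with ht
  have hden : (0 : ℝ) < (M : ℝ) ^ 2 + 2 * M + 2 := by positivity
  have ht0 : 0 < t := lt_min one_pos (div_pos hη hden)
  have ht1 : t ≤ 1 := min_le_left _ _
  have htη : t * (M ^ 2 + 2 * M + 2) ≤ η := by
    have : t ≤ η / (M ^ 2 + 2 * M + 2) := min_le_right _ _
    rwa [le_div_iff₀ hden] at this
  refine ⟨t ^ 3, by positivity, ?_⟩
  intro V _ _ a ha0 ha1 c d hd0 hd1 hds hpsd D hD
  -- the weights
  set w : Fin M → ℝ := fun i => av fun x => if c x = i then 1 else 0 with hw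
  have hw0 : ∀ i, 0 ≤ w i := fun i => av_nonneg fun x => by split_ifs <;> norm_num
  have hpush : ∀ F : Fin M → ℝ, (av fun x => F (c x)) = ∑ i, w i * F i := by
    intro F
    have e1 : ∀ x, F (c x) = ∑ i, (if c x = i then 1 else 0) * F i := by
      intro x
      simp
    rw [av_congr e1, av_sum]
    apply sum_congr rfl
    intro i _
    rw [av_mul_right]
  have hpush2 : ∀ F : Fin M → Fin M → ℝ, (av fun x => av fun y => F (c x) (c y)) =
      ∑ i, ∑ j, w i * w j * F i j := by
    intro F
    rw [av_congr (fun x => hpush (F (c x))), hpush (fun i => ∑ j, w j * F i j)]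
    apply sum_congr rfl; intro i _
    rw [mul_sum]
    apply sum_congr rfl; intro j _
    ring
  have hw1 : ∑ i, w i = 1 := by
    have := hpush (fun _ => 1)
    rw [av_const] at this
    rw [this]
    simp
  have hwx : ∀ x, 0 < w (c x) := by
    intro x
    rw [hw]
    simp only
    unfold av
    apply div_pos _ (by exact_mod_cast Fintype.card_pos)
    apply sum_pos' (fun y _ => by split_ifs <;> norm_num)
    exact ⟨x, mem_univ _, by simp⟩
  set r : Fin M → ℝ := fun i => √(w i) with hr
  have hr0 : ∀ i, 0 ≤ r i := fun i => Real.sqrt_nonneg _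
  have hrr : ∀ i, r i * r i = w i := fun i => Real.mul_self_sqrt (hw0 i)
  have hr1 : ∑ i, r i * r i = 1 := by rw [sum_congr rfl fun i _ => hrr i, hw1]
  have hrx : ∀ x, 0 < r (c x) := fun x => Real.sqrt_pos.2 (hwx x)
  have hK : ∀ i j, |a - d i j| ≤ 1 := by
    intro i j
    rw [abs_le]
    constructor <;> linarith [hd0 i j, hd1 i j]
  -- w_i (e / r_i) = r_i e
  have hwr : ∀ i (z : ℝ), w i * (z / r i) = r i * z := by
    intro i z
    by_cases h : r i = 0
    · rw [← hrr, h]; ring
    · rw [← hrr]; field_simp
  obtain ⟨lam, e, hanti, hon, hcp, hsp, heig, htr⟩ := spec M (fun i j => r i * (a - d i j) * r j)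
    (fun i j => by rw [hds i j]; ring)
  -- (1) the eigenvalues are at least `-t`
  have hlow : ∀ l, -t ≤ lam l := by
    intro l
    by_contra hcon
    push Not at hcon
    set μ := -lam l with hμ
    have hμt : t < μ := by rw [hμ]; linarith
    have hee : ∑ i, e l i * e l i = 1 := by rw [hon, if_pos rfl]
    have hb : ∀ i, |lam l * e l i| ≤ r i := by
      intro i
      rw [← heig l i]
      have e1 : ∑ j, r i * (a - d i j) * r j * e l j = r i * ∑ j, (a - d i j) * (r j * e l j) := by
        rw [mul_sum]; apply sum_congr rfl; intro j _; ring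
      rw [e1, abs_mul, abs_of_nonneg (hr0 i)]
      have e2 : |∑ j, (a - d i j) * (r j * e l j)| ≤ 1 := by
        calc |∑ j, (a - d i j) * (r j * e l j)| ≤ ∑ j, |(a - d i j) * (r j * e l j)| :=
              abs_sum_le_sum_abs _ _
          _ ≤ ∑ j, (r j * r j + e l j * e l j) / 2 := by
              apply sum_le_sum; intro j _
              rw [abs_mul, abs_mul, abs_of_nonneg (hr0 j)]
              have h1 : |a - d i j| * (r j * |e l j|) ≤ 1 * (r j * |e l j|) :=
                mul_le_mul_of_nonneg_right (hK i j) (mul_nonneg (hr0 j) (abs_nonneg _))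
              have h2 : 0 ≤ (r j - |e l j|) ^ 2 := sq_nonneg _
              have h3 : |e l j| * |e l j| = e l j * e l j := abs_mul_abs_self _
              nlinarith
          _ = 1 := by rw [← sum_div, sum_add_distrib, hr1, hee]; norm_num
      calc r i * |∑ j, (a - d i j) * (r j * e l j)| ≤ r i * 1 :=
            mul_le_mul_of_nonneg_left e2 (hr0 i)
        _ = r i := mul_one _
    have h1 := hpsd (fun x => μ * (e l (c x) / r (c x))) (by
      intro x
      have h2 := hb (c x)
      rw [← mul_div_assoc, abs_div, abs_of_pos (hrx x), div_le_one (hrx x)]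
      rw [hμ, neg_mul, abs_neg]
      exact h2)
    have h2 : (av fun x => av fun y => μ * (e l (c x) / r (c x)) * (μ * (e l (c y) / r (c y))) *
        (a - d (c x) (c y))) = - μ ^ 3 := by
      rw [hpush2 (fun i j => μ * (e l i / r i) * (μ * (e l j / r j)) * (a - d i j))]
      calc ∑ i, ∑ j, w i * w j * (μ * (e l i / r i) * (μ * (e l j / r j)) * (a - d i j))
          = ∑ i, ∑ j, μ ^ 2 * (e l i * (r i * (a - d i j) * r j * e l j)) := by
            apply sum_congr rfl; intro i _
            apply sum_congr rfl; intro j _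
            have e1 := hwr i (e l i)
            have e2 := hwr j (e l j)
            calc w i * w j * (μ * (e l i / r i) * (μ * (e l j / r j)) * (a - d i j))
                = μ ^ 2 * (w i * (e l i / r i)) * (w j * (e l j / r j)) * (a - d i j) := by ring
              _ = _ := by rw [e1, e2]; ring
        _ = μ ^ 2 * ∑ i, e l i * (lam l * e l i) := by
            rw [mul_sum]
            apply sum_congr rfl; intro i _
            rw [← mul_sum, ← mul_sum, heig l i]
        _ = μ ^ 2 * (lam l * ∑ i, e l i * e l i) := by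
            congr 1
            rw [mul_sum]
            apply sum_congr rfl; intro i _; ring
        _ = -μ ^ 3 := by rw [hee, hμ]; ring
    rw [h2] at h1
    have h3 : t ^ 3 < μ ^ 3 := pow_lt_pow_left₀ hμt ht0.le (by norm_num)
    linarith
  -- (2) the trace
  have htr' : ∑ l, lam l ≤ a := by
    rw [htr]
    calc ∑ i, r i * (a - d i i) * r i ≤ ∑ i, a * (r i * r i) := by
          apply sum_le_sum; intro i _
          have := mul_nonneg (hd0 i i) (mul_self_nonneg (r i))
          nlinarith
      _ = a := by rw [← mul_sum, hr1, mul_one]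
  set lp : Fin M → ℝ := fun l => max (lam l) 0 with hlp
  have hlp0 : ∀ l, 0 ≤ lp l := fun l => le_max_right _ _
  have hlpt : ∀ l, lp l ≤ lam l + t := fun l => max_le (by linarith) (by linarith [hlow l])
  have hlpa : Antitone lp := fun l m h => max_le_max (hanti h) le_rfl
  set T := ∑ l, lp l with hT
  have hT0 : 0 ≤ T := sum_nonneg fun l _ => hlp0 l
  have hTa : T ≤ a + M * t := by
    calc T ≤ ∑ l, (lam l + t) := sum_le_sum fun l _ => hlpt l
      _ = ∑ l, lam l + M * t := by
          rw [sum_add_distrib, sum_const, card_univ, Fintype.card_fin, nsmul_eq_mul]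
      _ ≤ a + M * t := by linarith
  -- small errors
  have hMt : M * t ≤ η := by nlinarith
  have htη' : t ≤ η := by nlinarith [mul_nonneg hM0 ht0.le, mul_nonneg (sq_nonneg (M : ℝ)) ht0.le]
  -- the vectors
  refine ⟨fun x l => if h : (l : ℕ) < M then √(lp ⟨l, h⟩) * (e ⟨l, h⟩ (c x) / r (c x)) else 0,
    ?_, ?_, ?_⟩
  · -- (3a)
    have e1 : ∀ x, ∑ l : Fin D, (if h : (l : ℕ) < M then √(lp ⟨l, h⟩) *
        (e ⟨l, h⟩ (c x) / r (c x)) else 0) ^ 2 =
        ∑ l ∈ univ.filter (fun l : Fin M => (l : ℕ) < D), lp l * (e l (c x) / r (c x)) ^ 2 := by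
      intro x
      rw [← sumD M D (fun l => lp l * (e l (c x) / r (c x)) ^ 2)]
      apply sum_congr rfl; intro l _
      split_ifs with h
      · rw [mul_pow, Real.sq_sqrt (hlp0 _)]
      · norm_num
    rw [av_congr e1, av_sum]
    calc ∑ l ∈ univ.filter (fun l : Fin M => (l : ℕ) < D),
          (av fun x => lp l * (e l (c x) / r (c x)) ^ 2)
        ≤ ∑ l ∈ univ.filter (fun l : Fin M => (l : ℕ) < D), lp l := by
          apply sum_le_sum; intro l _
          rw [av_mul_left, hpush (fun i => (e l i / r i) ^ 2)]
          have h1 : ∑ i, w i * (e l i / r i) ^ 2 ≤ 1 := by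
            have hee : ∑ i, e l i * e l i = 1 := by rw [hon, if_pos rfl]
            rw [← hee]
            apply sum_le_sum; intro i _
            by_cases h : r i = 0
            · rw [h, div_zero]; nlinarith [mul_self_nonneg (e l i)]
            · rw [← hrr]; apply le_of_eq; field_simp
          calc lp l * ∑ i, w i * (e l i / r i) ^ 2 ≤ lp l * 1 :=
                mul_le_mul_of_nonneg_left h1 (hlp0 l)
            _ = lp l := mul_one _
      _ ≤ T := sum_le_sum_of_subset_of_nonneg (filter_subset _ _) fun l _ _ => hlp0 l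
      _ ≤ a + η := by linarith
  · -- (3b)
    have e1 : ∀ l : Fin D, (av fun x => if h : (l : ℕ) < M then √(lp ⟨l, h⟩) *
        (e ⟨l, h⟩ (c x) / r (c x)) else 0) ^ 2 =
        if h : (l : ℕ) < M then lp ⟨l, h⟩ * (∑ i, r i * e ⟨l, h⟩ i) ^ 2 else 0 := by
      intro l
      split_ifs with h
      · rw [av_mul_left, hpush (fun i => e ⟨l, h⟩ i / r i), mul_pow, Real.sq_sqrt (hlp0 _)]
        congr 2
        apply sum_congr rfl; intro i _
        exact hwr i _
      · rw [av_zero]; norm_num
    rw [sum_congr rfl fun l _ => e1 l, sumD M D (fun l => lp l * (∑ i, r i * e l i) ^ 2)]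
    calc ∑ l ∈ univ.filter (fun l : Fin M => (l : ℕ) < D), lp l * (∑ i, r i * e l i) ^ 2
        ≤ ∑ l, lp l * (∑ i, r i * e l i) ^ 2 :=
          sum_le_sum_of_subset_of_nonneg (filter_subset _ _) fun l _ _ =>
            mul_nonneg (hlp0 l) (sq_nonneg _)
      _ ≤ ∑ l, (lam l + t) * (∑ i, r i * e l i) ^ 2 :=
          sum_le_sum fun l _ => mul_le_mul_of_nonneg_right (hlpt l) (sq_nonneg _)
      _ = (∑ i, ∑ j, w i * w j * (a - d i j)) + t := by
          have e2 : ∀ l, (lam l + t) * (∑ i, r i * e l i) ^ 2 =
              ∑ i, ∑ j, (r i * r j * (lam l * e l i * e l j) +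
                t * (r i * r j * (e l i * e l j))) := by
            intro l
            rw [sq, sum_mul_sum, mul_sum]
            apply sum_congr rfl; intro i _
            rw [mul_sum]
            apply sum_congr rfl; intro j _
            ring
          rw [sum_congr rfl fun l _ => e2 l, sum_comm]
          have e3 : ∀ i, ∑ l, ∑ j, (r i * r j * (lam l * e l i * e l j) +
                t * (r i * r j * (e l i * e l j))) =
              (∑ j, w i * w j * (a - d i j)) + t * (r i * r i) := by
            intro i
            rw [sum_comm]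
            have e4 : ∀ j, ∑ l, (r i * r j * (lam l * e l i * e l j) +
                t * (r i * r j * (e l i * e l j))) =
                w i * w j * (a - d i j) + t * (r i * r j * if i = j then 1 else 0) := by
              intro j
              rw [sum_add_distrib, ← mul_sum, ← hsp i j, ← mul_sum, ← mul_sum, hcp i j,
                ← hrr i, ← hrr j]
              ring
            rw [sum_congr rfl fun j _ => e4 j, sum_add_distrib]
            congr 1
            rw [sum_eq_single i]
            · rw [if_pos rfl, mul_one]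
            · intro j _ hj
              rw [if_neg (Ne.symm hj)]; ring
            · intro h; exact absurd (mem_univ _) h
          rw [sum_congr rfl fun i _ => e3 i, sum_add_distrib, ← mul_sum, hr1, mul_one]
      _ ≤ (av fun x => av fun y => (a - d (c x) (c y))) + η := by
          rw [hpush2 (fun i j => a - d i j)]
          linarith
  · -- (3c)
    have e1 : ∀ x y, ∑ l : Fin D, (if h : (l : ℕ) < M then √(lp ⟨l, h⟩) *
        (e ⟨l, h⟩ (c x) / r (c x)) else 0) * (if h : (l : ℕ) < M then √(lp ⟨l, h⟩) *
        (e ⟨l, h⟩ (c y) / r (c y)) else 0) =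
        ∑ l : Fin M, (if (l : ℕ) < D then lp l else 0) * (e l (c x) / r (c x)) *
          (e l (c y) / r (c y)) := by
      intro x y
      have e2 := sumD M D (fun l => lp l * (e l (c x) / r (c x)) * (e l (c y) / r (c y)))
      rw [sum_filter] at e2
      have e3 : ∑ l : Fin M, (if (l : ℕ) < D then lp l else 0) * (e l (c x) / r (c x)) *
          (e l (c y) / r (c y)) = ∑ l : Fin M, (if (l : ℕ) < D then
            lp l * (e l (c x) / r (c x)) * (e l (c y) / r (c y)) else 0) := by
        apply sum_congr rfl; intro l _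
        split_ifs <;> ring
      rw [e3, ← e2]
      apply sum_congr rfl; intro l _
      split_ifs with h
      · have := Real.mul_self_sqrt (hlp0 ⟨l, h⟩)
        linear_combination (e ⟨l, h⟩ (c x) / r (c x)) * (e ⟨l, h⟩ (c y) / r (c y)) * this
      · ring
    set H : Fin M → Fin M → ℝ := fun i j =>
      (a - d i j - ∑ l : Fin M, (if (l : ℕ) < D then lp l else 0) * (e l i / r i) *
          (e l j / r j)) ^ 2 with hH
    have e4 : (av fun x => av fun y => (a - d (c x) (c y) -
        ∑ l : Fin D, (if h : (l : ℕ) < M then √(lp ⟨l, h⟩) *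
        (e ⟨l, h⟩ (c x) / r (c x)) else 0) * (if h : (l : ℕ) < M then √(lp ⟨l, h⟩) *
        (e ⟨l, h⟩ (c y) / r (c y)) else 0)) ^ 2) = av fun x => av fun y => H (c x) (c y) := by
      apply av_congr; intro x
      apply av_congr; intro y
      rw [e1 x y]
    rw [e4, hpush2 H]
    set ν : Fin M → ℝ := fun l => lam l - if (l : ℕ) < D then lp l else 0 with hν
    have h1 : ∑ i, ∑ j, w i * w j * H i j ≤ ∑ i, ∑ j, (∑ l, ν l * e l i * e l j) ^ 2 := by
      apply sum_le_sum; intro i _
      apply sum_le_sum; intro j _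
      by_cases hi : r i = 0
      · rw [← hrr i, hi]
        have := sq_nonneg (∑ l, ν l * e l i * e l j)
        linarith
      by_cases hj : r j = 0
      · rw [← hrr j, hj]
        have := sq_nonneg (∑ l, ν l * e l i * e l j)
        linarith
      apply le_of_eq
      have e5 : ∑ l, ν l * e l i * e l j = r i * r j * (a - d i j -
          ∑ l : Fin M, (if (l : ℕ) < D then lp l else 0) * (e l i / r i) * (e l j / r j)) := by
        have e6 : ∑ l, ν l * e l i * e l j = ∑ l, lam l * e l i * e l j -
            ∑ l : Fin M, (if (l : ℕ) < D then lp l else 0) * e l i * e l j := by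
          rw [← sum_sub_distrib]
          apply sum_congr rfl; intro l _
          simp only [hν]
          ring
        rw [e6, ← hsp i j, mul_sub (r i * r j), mul_sum]
        congr 1
        · ring
        · apply sum_congr rfl; intro l _
          field_simp
      rw [e5, hH, ← hrr i, ← hrr j]
      ring
    rw [frob e hon ν] at h1
    have h2 : ∑ l, ν l ^ 2 ≤ ∑ l : Fin M, (if (l : ℕ) < D then 0 else lp l ^ 2) + M * t ^ 2 := by
      have e7 : (M : ℝ) * t ^ 2 = ∑ _l : Fin M, t ^ 2 := by
        rw [sum_const, card_univ, Fintype.card_fin, nsmul_eq_mul]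
      rw [e7, ← sum_add_distrib]
      apply sum_le_sum; intro l _
      have hl := hlow l
      simp only [hν]
      rcases le_total 0 (lam l) with h0 | h0
      · have : lp l = lam l := max_eq_left h0
        rw [this]
        split_ifs
        · rw [sub_self]; nlinarith
        · rw [sub_zero]; nlinarith
      · have : lp l = 0 := max_eq_right h0
        rw [this]
        split_ifs <;> nlinarith
    have h3 := tail hD lp hlp0 hlpa
    rw [← hT] at h3
    have hD1 : (1 : ℝ) ≤ D := by exact_mod_cast hD
    have h4 : T ^ 2 / (4 * D) ≤ a ^ 2 / (4 * D) + (2 * M * t + M ^ 2 * t) / 4 := by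
      have h5 : T ^ 2 ≤ a ^ 2 + (2 * M * t + M ^ 2 * t) := by
        have h6 : T ^ 2 ≤ (a + M * t) ^ 2 := pow_le_pow_left₀ hT0 hTa 2
        have h7 : a * (M * t) ≤ M * t := by
          have := mul_nonneg hM0 ht0.le
          nlinarith
        have h8 : t ^ 2 ≤ t := by nlinarith
        have h9 : (M : ℝ) ^ 2 * t ^ 2 ≤ M ^ 2 * t := mul_le_mul_of_nonneg_left h8 (sq_nonneg _)
        nlinarith
      have h10 : (2 * M * t + M ^ 2 * t) / (4 * D) ≤ (2 * M * t + M ^ 2 * t) / 4 := by
        apply div_le_div_of_nonneg_left (by positivity) (by norm_num)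
        linarith
      calc T ^ 2 / (4 * D) ≤ (a ^ 2 + (2 * M * t + M ^ 2 * t)) / (4 * D) :=
            div_le_div_of_nonneg_right h5 (by positivity)
        _ = a ^ 2 / (4 * D) + (2 * M * t + M ^ 2 * t) / (4 * D) := by rw [add_div]
        _ ≤ _ := by linarith
    have h5 : (2 * M * t + M ^ 2 * t) / 4 + M * t ^ 2 ≤ η := by
      have h8 : t ^ 2 ≤ t := by nlinarith
      have h9 : (M : ℝ) * t ^ 2 ≤ M * t := mul_le_mul_of_nonneg_left h8 hM0
      have h10 : 0 ≤ (M : ℝ) * t := mul_nonneg hM0 ht0.le
      have h11 : 0 ≤ (M : ℝ) ^ 2 * t := mul_nonneg (sq_nonneg _) ht0.le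
      nlinarith
    linarith

end Pool.Agent.H70.GR.LAK
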