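import Pool.Agent.H70.GR.Stm

/-! PSDK: second order condition for the vertices. -/

set_option autoImplicit false
set_option linter.unusedSectionVars false
open Finset

namespace Pool.Agent.H70.GR.PSDK

open Pool.Agent.H70.RC Pool.Agent.H70.QR Pool.Agent.H70.GR

variable {V : Type} [Fintype V] [Nonempty V]

/-- the first value -/
theorem av_cons {n : ℕ} (F : (Fin (n + 1) → V) → ℝ) :
    av F = av fun u => av fun z : Fin n → V => F (Fin.cons u z : Fin (n + 1) → V) := by
  rw [← av_prod (fun (u : V) (z : Fin n → V) => F (Fin.cons u z : Fin (n + 1) → V))]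
  exact (av_equiv (Fin.consEquiv (fun _ : Fin (n + 1) => V)) F).symm

theorem av_perm {n : ℕ} (σ : Equiv.Perm (Fin n)) (F : (Fin n → V) → ℝ) :
    av F = av fun x => F (x ∘ σ) :=
  (av_equiv (σ.symm.arrowCongr (Equiv.refl V)) F).symm

/-- the coefficients of the expansion -/
noncomputable def cf {k : ℕ} (χ : (Fin k → V) → ℝ) (g : V → ℝ) (t : Finset (Fin k)) : ℝ :=
  av fun x : Fin k → V => (∏ i ∈ t, g (x i)) * χ x

/-- the linear form -/
noncomputable def E1 {m : ℕ} (χ : (Fin (m + 2) → V) → ℝ) (g : V → ℝ) : ℝ :=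
  av fun u => av fun v => g u * cod2 χ u v

/-- the quadratic form -/
noncomputable def Q2 {m : ℕ} (χ : (Fin (m + 2) → V) → ℝ) (g : V → ℝ) : ℝ :=
  av fun u => av fun v => g u * g v * cod2 χ u v

theorem cf_abs {k : ℕ} {χ : (Fin k → V) → ℝ} (h : KerK χ) {g : V → ℝ} (hg : ∀ x, |g x| ≤ 1)
    (t : Finset (Fin k)) : |cf χ g t| ≤ 1 := by
  refine (abs_av_le _).trans (av_le_of_le fun x => ?_)
  rw [abs_mul, Finset.abs_prod, abs_of_nonneg (h.nonneg x)]
  exact mul_le_one₀ (Finset.prod_le_one (fun i _ => abs_nonneg _) fun i _ => hg _) (h.nonneg x) (h.le_one x)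

theorem cf_zero {k : ℕ} (χ : (Fin k → V) → ℝ) (g : V → ℝ) : cf χ g ∅ = av χ := by
  unfold cf
  simp only [Finset.prod_empty, one_mul]

theorem cf_one {m : ℕ} {χ : (Fin (m + 2) → V) → ℝ} (h : KerK χ) (g : V → ℝ) (i : Fin (m + 2)) :
    cf χ g {i} = E1 χ g := by
  have h1 : cf χ g {i} = av fun x : Fin (m + 2) → V => g (x 0) * χ x := by
    rw [av_perm (Equiv.swap 0 i) (fun x : Fin (m + 2) → V => g (x 0) * χ x)]
    unfold cf
    refine av_congr fun x => ?_
    rw [Finset.prod_singleton, h.symm, Function.comp_apply, Equiv.swap_apply_left]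
  rw [h1, av_cons]
  unfold E1
  refine av_congr fun u => ?_
  rw [av_cons]
  refine av_congr fun v => ?_
  simp only [Fin.cons_zero]
  rw [av_mul_left]
  rfl

theorem exists_perm {m : ℕ} {i j : Fin (m + 2)} (hij : i ≠ j) :
    ∃ σ : Equiv.Perm (Fin (m + 2)), σ 0 = i ∧ σ 1 = j := by
  have h01 : (1 : Fin (m + 2)) ≠ 0 := by
    intro h
    have := congrArg Fin.val h
    simp at this
  refine ⟨Equiv.swap (Equiv.swap 0 i 1) j * Equiv.swap 0 i, ?_, ?_⟩
  · rw [Equiv.Perm.mul_apply, Equiv.swap_apply_left]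
    apply Equiv.swap_apply_of_ne_of_ne
    · intro h
      have h2 : Equiv.swap 0 i 1 = Equiv.swap 0 i 0 := by rw [← h, Equiv.swap_apply_left]
      exact h01 ((Equiv.swap 0 i).injective h2)
    · exact hij
  · rw [Equiv.Perm.mul_apply, Equiv.swap_apply_left]

theorem cf_two {m : ℕ} {χ : (Fin (m + 2) → V) → ℝ} (h : KerK χ) (g : V → ℝ) {i j : Fin (m + 2)}
    (hij : i ≠ j) : cf χ g {i, j} = Q2 χ g := by
  obtain ⟨σ, hσ0, hσ1⟩ := exists_perm hij
  have h1 : cf χ g {i, j} = av fun x : Fin (m + 2) → V => g (x 0) * g (x 1) * χ x := by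
    rw [av_perm σ (fun x : Fin (m + 2) → V => g (x 0) * g (x 1) * χ x)]
    unfold cf
    refine av_congr fun x => ?_
    rw [Finset.prod_pair hij, h.symm, Function.comp_apply, Function.comp_apply, hσ0, hσ1]
  rw [h1, av_cons]
  unfold Q2
  refine av_congr fun u => ?_
  rw [av_cons]
  refine av_congr fun v => ?_
  have e : ∀ z : Fin m → V, (Fin.cons u (Fin.cons v z : Fin (m + 1) → V) : Fin (m + 2) → V) 1 = v := by
    intro z
    rw [← Fin.succ_zero_eq_one, Fin.cons_succ, Fin.cons_zero]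
  simp only [Fin.cons_zero, e]
  rw [av_mul_left]
  rfl

/-- the expansion of the weighted density -/
theorem expand {m : ℕ} {χ : (Fin (m + 2) → V) → ℝ} (h : KerK χ) {g : V → ℝ} (hg : ∀ x, |g x| ≤ 1)
    {s : ℝ} (hs : 0 ≤ s) (hs1 : s ≤ 1) : ∃ R : ℝ, |R| ≤ s ^ 3 * 2 ^ (m + 2) ∧
      VWK χ g s = av χ + s * (m + 2) * E1 χ g + s ^ 2 * ((m + 2).choose 2 : ℕ) * Q2 χ g + R := by
  have h1 : VWK χ g s = ∑ t ∈ (univ : Finset (Fin (m + 2))).powerset, s ^ t.card * cf χ g t := by
    unfold VWK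
    have e : ∀ x : Fin (m + 2) → V, (∏ i, (1 + s * g (x i))) * χ x =
        ∑ t ∈ (univ : Finset (Fin (m + 2))).powerset, s ^ t.card * ((∏ i ∈ t, g (x i)) * χ x) := by
      intro x
      rw [Finset.prod_one_add, Finset.sum_mul]
      refine Finset.sum_congr rfl fun t _ => ?_
      rw [Finset.prod_mul_distrib, Finset.prod_const, mul_assoc]
    rw [av_congr e, av_sum]
    refine Finset.sum_congr rfl fun t _ => ?_
    rw [av_mul_left]
    rfl
  rw [Finset.sum_powerset, Finset.card_univ, Fintype.card_fin] at h1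
  have h2 : ∀ a : ℕ → ℝ, ∑ j ∈ range (m + 2 + 1), a j = a 0 + a 1 + a 2 + ∑ j ∈ range m, a (j + 3) := by
    intro a
    rw [Finset.sum_range_succ', Finset.sum_range_succ', Finset.sum_range_succ']
    simp only [zero_add]
    ring
  rw [h2] at h1
  refine ⟨∑ j ∈ range m, ∑ t ∈ powersetCard (j + 3) (univ : Finset (Fin (m + 2))), s ^ t.card * cf χ g t,
    ?_, h1.trans ?_⟩
  · refine (Finset.abs_sum_le_sum_abs _ _).trans ?_
    have h3 : ∀ j ∈ range m, |∑ t ∈ powersetCard (j + 3) (univ : Finset (Fin (m + 2))), s ^ t.card * cf χ g t| ≤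
        s ^ 3 * ((m + 2).choose (j + 3) : ℕ) := by
      intro j _
      refine (Finset.abs_sum_le_sum_abs _ _).trans ?_
      have h4 : ∀ t ∈ powersetCard (j + 3) (univ : Finset (Fin (m + 2))), |s ^ t.card * cf χ g t| ≤ s ^ 3 := by
        intro t ht
        rw [(Finset.mem_powersetCard.1 ht).2, abs_mul, abs_of_nonneg (pow_nonneg hs _)]
        calc s ^ (j + 3) * |cf χ g t| ≤ s ^ (j + 3) * 1 :=
              mul_le_mul_of_nonneg_left (cf_abs h hg t) (pow_nonneg hs _)
          _ = s ^ (j + 3) := mul_one _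
          _ ≤ s ^ 3 := pow_le_pow_of_le_one hs hs1 (by omega)
      refine (Finset.sum_le_sum h4).trans ?_
      rw [Finset.sum_const, Finset.card_powersetCard, Finset.card_univ, Fintype.card_fin, nsmul_eq_mul, mul_comm]
    refine (Finset.sum_le_sum h3).trans ?_
    rw [← Finset.mul_sum]
    apply mul_le_mul_of_nonneg_left _ (pow_nonneg hs 3)
    have h5 : ∑ j ∈ range m, (m + 2).choose (j + 3) ≤ 2 ^ (m + 2) := by
      have h6 := Nat.sum_range_choose (m + 2)
      rw [Finset.sum_range_succ', Finset.sum_range_succ', Finset.sum_range_succ'] at h6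
      have h7 : ∀ j, (m + 2).choose (j + 3) = (m + 2).choose (j + 1 + 1 + 1) := fun j => rfl
      simp only [h7]
      omega
    exact_mod_cast h5
  · rw [Finset.powersetCard_zero, Finset.sum_singleton, Finset.card_empty, pow_zero, one_mul, cf_zero]
    have h8 : ∑ t ∈ powersetCard 1 (univ : Finset (Fin (m + 2))), s ^ t.card * cf χ g t =
        s * (m + 2) * E1 χ g := by
      have h9 : ∀ t ∈ powersetCard 1 (univ : Finset (Fin (m + 2))), s ^ t.card * cf χ g t = s * E1 χ g := by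
        intro t ht
        have h10 := (Finset.mem_powersetCard.1 ht).2
        obtain ⟨i, rfl⟩ := Finset.card_eq_one.1 h10
        rw [h10, pow_one, cf_one h]
      rw [Finset.sum_congr rfl h9, Finset.sum_const, Finset.card_powersetCard, Finset.card_univ,
        Fintype.card_fin, Nat.choose_one_right, nsmul_eq_mul]
      push_cast
      ring
    have h11 : ∑ t ∈ powersetCard 2 (univ : Finset (Fin (m + 2))), s ^ t.card * cf χ g t =
        s ^ 2 * ((m + 2).choose 2 : ℕ) * Q2 χ g := by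
      have h9 : ∀ t ∈ powersetCard 2 (univ : Finset (Fin (m + 2))), s ^ t.card * cf χ g t = s ^ 2 * Q2 χ g := by
        intro t ht
        have h10 := (Finset.mem_powersetCard.1 ht).2
        obtain ⟨i, j, hij, rfl⟩ := Finset.card_eq_two.1 h10
        rw [h10, cf_two h g hij]
      rw [Finset.sum_congr rfl h9, Finset.sum_const, Finset.card_powersetCard, Finset.card_univ,
        Fintype.card_fin, nsmul_eq_mul]
      ring
    rw [h8, h11]

theorem cod2_symm {m : ℕ} {χ : (Fin (m + 2) → V) → ℝ} (h : KerK χ) (u v : V) : cod2 χ u v = cod2 χ v u := by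
  unfold cod2
  refine av_congr fun z => ?_
  rw [← h.symm (Equiv.swap 0 1)]
  congr 1
  funext i
  rw [Function.comp_apply]
  have e1 : ∀ a b : V, (Fin.cons a (Fin.cons b z : Fin (m + 1) → V) : Fin (m + 2) → V) 1 = b := by
    intro a b
    rw [← Fin.succ_zero_eq_one, Fin.cons_succ, Fin.cons_zero]
  by_cases h0 : i = 0
  · rw [h0, Equiv.swap_apply_left, e1, Fin.cons_zero]
  · by_cases h1 : i = 1
    · rw [h1, Equiv.swap_apply_right, e1, Fin.cons_zero]
    · rw [Equiv.swap_apply_of_ne_of_ne h0 h1]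
      obtain ⟨j, rfl⟩ := Fin.exists_succ_eq.2 h0
      rw [Fin.cons_succ, Fin.cons_succ]
      have hj : j ≠ 0 := by
        rintro rfl
        exact h1 Fin.succ_zero_eq_one
      obtain ⟨l, rfl⟩ := Fin.exists_succ_eq.2 hj
      rw [Fin.cons_succ, Fin.cons_succ]

theorem av_cod2 {m : ℕ} (χ : (Fin (m + 2) → V) → ℝ) :
    (av fun u => av fun v => cod2 χ u v) = av χ := by
  rw [av_cons χ]
  refine av_congr fun u => ?_
  rw [av_cons]
  rfl

theorem nums {t a A E Q R R' N K : ℝ} {m : ℕ} (ht : 0 < t) (ht1 : t ≤ 1) (ha : a - t ^ 3 ≤ A) (hd : A ≤ a + t ^ 3)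
    (hK1 : 1 ≤ K) (hKN : K ≤ N) (hN4 : 4 ≤ N) (q1 : -1 ≤ Q ∧ Q ≤ 1) (r1 : -(t ^ 3 * N) ≤ R ∧ R ≤ t ^ 3 * N)
    (r2 : -(t ^ 3 * N) ≤ R' ∧ R' ≤ t ^ 3 * N)
    (b1 : A + t * (m + 2) * E + t ^ 2 * K * Q + R ≤ a + t ^ 3)
    (b2 : A + t * (m + 2) * (-E) + t ^ 2 * K * Q + R' ≤ a + t ^ 3) :
    E ≤ t * (1 + N) ∧ -E ≤ t * (1 + N) ∧ Q ≤ t * (2 + N) := by
  have t2 : 0 < t ^ 2 := by positivity
  have t3 : t ^ 3 = t ^ 2 * t := by ring
  have t3' : 0 < t ^ 3 := by positivity
  have hm : (0 : ℝ) ≤ m := Nat.cast_nonneg _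
  have hN0 : 0 < N := by linarith
  have hKQ : -(t ^ 2 * N) ≤ t ^ 2 * K * Q := by
    have h1 : -(K) ≤ K * Q := by
      have := mul_le_mul_of_nonneg_left q1.1 (by linarith : 0 ≤ K)
      linarith
    have h2 : t ^ 2 * (-K) ≤ t ^ 2 * (K * Q) := mul_le_mul_of_nonneg_left h1 t2.le
    have h3 : t ^ 2 * K ≤ t ^ 2 * N := mul_le_mul_of_nonneg_left hKN t2.le
    linarith
  have ht32 : t ^ 3 ≤ t ^ 2 := by
    rw [t3]
    calc t ^ 2 * t ≤ t ^ 2 * 1 := mul_le_mul_of_nonneg_left ht1 t2.le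
      _ = t ^ 2 := mul_one _
  have ht3N : t ^ 3 * N ≤ t ^ 2 * N := mul_le_mul_of_nonneg_right ht32 hN0.le
  have l1' : (m + 2) * E ≤ t * (2 + 2 * N) := by
    have h1 : t * ((m + 2) * E) ≤ t * (t * (2 + 2 * N)) := by
      have : t * (t * (2 + 2 * N)) = 2 * t ^ 2 + 2 * (t ^ 2 * N) := by ring
      rw [this]
      linarith [r1.1]
    exact le_of_mul_le_mul_left h1 ht
  have l2' : (m + 2) * (-E) ≤ t * (2 + 2 * N) := by
    have h1 : t * ((m + 2) * (-E)) ≤ t * (t * (2 + 2 * N)) := by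
      have : t * (t * (2 + 2 * N)) = 2 * t ^ 2 + 2 * (t ^ 2 * N) := by ring
      rw [this]
      linarith [r2.1]
    exact le_of_mul_le_mul_left h1 ht
  have p1 : 0 ≤ t * (1 + N) := by positivity
  have p2 : 0 ≤ t * (2 + N) := by positivity
  have e1 : E ≤ t * (1 + N) := by
    by_cases h : 0 ≤ E
    · have : 0 ≤ m * E := mul_nonneg hm h
      linarith
    · push Not at h
      linarith
  have e2 : -E ≤ t * (1 + N) := by
    by_cases h : 0 ≤ -E
    · have : 0 ≤ m * (-E) := mul_nonneg hm h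
      linarith
    · push Not at h
      linarith
  have k2 : K * Q ≤ t * (2 + N) := by
    have h1 : t ^ 2 * (K * Q) ≤ t ^ 2 * (t * (2 + N)) := by
      have : t ^ 2 * (t * (2 + N)) = 2 * t ^ 3 + t ^ 3 * N := by ring
      rw [this]
      linarith [r1.1, r2.1]
    exact le_of_mul_le_mul_left h1 t2
  have k3 : Q ≤ t * (2 + N) := by
    by_cases h : 0 ≤ Q
    · have : 1 * Q ≤ K * Q := mul_le_mul_of_nonneg_right hK1 h
      linarith
    · push Not at h
      linarith
  exact ⟨e1, e2, k3⟩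

theorem psdk : S_PSDK := by
  intro V _ _ m χ hχ a t ht ht1 ha hV f hf
  have h0 : ∀ x : V, |(fun _ : V => (0 : ℝ)) x| ≤ 1 := by intro x; simp
  -- the density
  have hd : av χ ≤ a + t ^ 3 := by
    have h1 := hV (fun _ => 0) h0 (av_const 0) 0 le_rfl zero_le_one
    have h2 : VWK χ (fun _ => (0 : ℝ)) 0 = av χ := by
      unfold VWK
      refine av_congr fun x => ?_
      simp
    rwa [h2] at h1
  set α := av f with hα
  have hα1 : |α| ≤ 1 := (abs_av_le f).trans (av_le_of_le hf)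
  set g : V → ℝ := fun x => (f x - α) / 2 with hg
  have hg1 : ∀ x, |g x| ≤ 1 := by
    intro x
    have h1 := abs_le.1 (hf x)
    have h2 := abs_le.1 hα1
    rw [hg, abs_le]
    constructor <;> simp only <;> linarith
  have hg0 : av g = 0 := by
    have h1 : ∀ x, g x = (1 / 2) * (f x - α) := fun x => by rw [hg]; ring
    rw [av_congr h1, av_mul_left, av_sub, av_const]
    simp [hα]
  have hng1 : ∀ x, |(fun x => - g x) x| ≤ 1 := by
    intro x
    rw [abs_neg]
    exact hg1 x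
  have hng0 : av (fun x => - g x) = 0 := by rw [av_neg, hg0, neg_zero]
  obtain ⟨R, hR, eR⟩ := expand hχ hg1 ht.le ht1
  obtain ⟨R', hR', eR'⟩ := expand hχ hng1 ht.le ht1
  have eE : E1 χ (fun x => - g x) = - E1 χ g := by
    unfold E1
    rw [← av_neg]
    refine av_congr fun u => ?_
    rw [← av_neg]
    exact av_congr fun v => by ring
  have eQ : Q2 χ (fun x => - g x) = Q2 χ g := by
    unfold Q2
    exact av_congr fun u => av_congr fun v => by ring
  have b1 := hV g hg1 hg0 t ht.le ht1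
  have b2 := hV _ hng1 hng0 t ht.le ht1
  rw [eR] at b1
  rw [eR', eE, eQ] at b2
  have hQ1 : |Q2 χ g| ≤ 1 := by
    have h1 : ({0, 1} : Finset (Fin (m + 2))) = {0, 1} := rfl
    rw [← cf_two hχ g (i := 0) (j := 1) (by
      intro h
      have := congrArg Fin.val h
      simp at this)]
    exact cf_abs hχ hg1 _
  obtain ⟨N, hN⟩ : ∃ N : ℝ, N = 2 ^ (m + 2) := ⟨_, rfl⟩
  rw [← hN] at hR hR'
  obtain ⟨K, hK⟩ : ∃ K : ℝ, K = ((m + 2).choose 2 : ℕ) := ⟨_, rfl⟩
  rw [← hK] at b1 b2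
  have hK1 : 1 ≤ K := by
    rw [hK]
    have : 1 ≤ (m + 2).choose 2 := Nat.choose_pos (by omega)
    exact_mod_cast this
  have hKN : K ≤ N := by
    rw [hK, hN]
    exact_mod_cast Nat.choose_le_two_pow (m + 2) 2
  have hN4 : 4 ≤ N := by
    rw [hN]
    calc (4 : ℝ) = 2 ^ 2 := by norm_num
      _ ≤ 2 ^ (m + 2) := pow_le_pow_right₀ (by norm_num) (by omega)
  set E := E1 χ g with hE
  set Q := Q2 χ g with hQ
  have q1 := abs_le.1 hQ1
  have r1 := abs_le.1 hR
  have r2 := abs_le.1 hR'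
  obtain ⟨e1, e2, k3⟩ := nums ht ht1 ha hd hK1 hKN hN4 q1 r1 r2 b1 b2
  have t3 : t ^ 3 = t ^ 2 * t := by ring
  -- the decomposition
  have hfg : ∀ x, f x = α + 2 * g x := fun x => by rw [hg]; ring
  have key : (av fun u => av fun v => f u * f v * (a - cod2 χ u v)) =
      α ^ 2 * (a - av χ) - 4 * α * E - 4 * Q := by
    have e3 : ∀ u v, f u * f v * (a - cod2 χ u v) =
        a * (f u * f v) - (α ^ 2 * cod2 χ u v + 2 * α * (g u * cod2 χ u v) + 2 * α * (g v * cod2 χ u v) +
          4 * (g u * g v * cod2 χ u v)) := by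
      intro u v
      rw [hfg u, hfg v]
      ring
    rw [av_congr fun u => av_congr (e3 u)]
    have e4 : (av fun u => av fun v => g v * cod2 χ u v) = E := by
      rw [av_comm, hE]
      unfold E1
      refine av_congr fun u => av_congr fun v => ?_
      rw [cod2_symm hχ]
    have e5 : (av fun u => av fun v => g u * cod2 χ u v) = E := rfl
    have e6 : (av fun u => av fun v => g u * g v * cod2 χ u v) = Q := rfl
    have e7 : (av fun u => av fun v => f u * f v) = α ^ 2 := by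
      simp only [av_mul_left, av_mul_right]
      rw [← hα]
      ring
    simp only [av_sub, av_add, av_mul_left] at e4 e5 e6 e7 ⊢
    have e8 := av_cod2 χ
    rw [e8, e4]
    have e5' : (av fun u => g u * av fun v => cod2 χ u v) = E := by rw [← e5]
    rw [e5', e7]
    have e6' : (av fun u => av fun v => g u * g v * cod2 χ u v) = Q := rfl
    rw [e6']
    ring
  rw [key]
  have hp : (2 : ℝ) ^ (m + 7) = 32 * N := by
    rw [hN, show m + 7 = (m + 2) + 5 by omega, pow_add]
    norm_num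
    ring
  rw [hp]
  have a1 := abs_le.1 hα1
  have s1 : -(t ^ 3) ≤ α ^ 2 * (a - av χ) := by
    have h1 : α ^ 2 ≤ 1 := by nlinarith
    have h2 : -(t ^ 3) ≤ a - av χ := by linarith
    have h3 : 0 ≤ α ^ 2 := sq_nonneg _
    by_cases h : 0 ≤ a - av χ
    · have : 0 ≤ α ^ 2 * (a - av χ) := mul_nonneg h3 h
      linarith
    · push Not at h
      have h4 : 1 * (a - av χ) ≤ α ^ 2 * (a - av χ) := mul_le_mul_of_nonpos_right h1 h.le
      linarith
  have s2 : 4 * α * E ≤ 4 * (t * (1 + N)) := by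
    have h1 : |α * E| ≤ t * (1 + N) := by
      rw [abs_mul]
      have h2 : |E| ≤ t * (1 + N) := abs_le.2 ⟨by linarith, e1⟩
      calc |α| * |E| ≤ 1 * |E| := mul_le_mul_of_nonneg_right hα1 (abs_nonneg _)
        _ ≤ t * (1 + N) := by rw [one_mul]; exact h2
    have h3 := (abs_le.1 h1).2
    linarith
  have s3 : t ^ 3 ≤ t := by
    have h1 := pow_le_pow_of_le_one ht.le ht1 (show 1 ≤ 3 by norm_num)
    rwa [pow_one] at h1
  have s4 : t * 4 ≤ t * N := mul_le_mul_of_nonneg_left hN4 ht.le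
  have s5 : t * (1 + N) = t + t * N := by ring
  have s6 : t * (2 + N) = 2 * t + t * N := by ring
  have s7 : 32 * N * t = 32 * (t * N) := by ring
  rw [s5] at s2
  rw [s6] at k3
  rw [s7]
  linarith

end Pool.Agent.H70.GR.PSDK
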