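import Pool.Agent.H70.QR.WR

/-! Pair degrees of nearly extremal k-graphs as Gram matrices: statements. -/

set_option autoImplicit false
open Finset

namespace Pool.Agent.H70.GR

open Pool.Agent.H70.RC Pool.Agent.H70.QR

/-- The kernel (edge indicator) of a k-graph on `V`. -/
structure KerK {V : Type} {k : ℕ} (χ : (Fin k → V) → ℝ) : Prop where
  nonneg : ∀ x, 0 ≤ χ x
  le_one : ∀ x, χ x ≤ 1
  symm : ∀ (σ : Equiv.Perm (Fin k)) (x : Fin k → V), χ (x ∘ σ) = χ x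
  inj : ∀ x, ¬ Function.Injective x → χ x = 0

/-- `M` bounds `k!` times the number of edges of all blow-ups on `n` vertices. -/
def BdK {V : Type} {k : ℕ} (χ : (Fin k → V) → ℝ) (n : ℕ) (M : ℝ) : Prop :=
  ∀ φ : Fin n → V, ∑ x : Fin k → Fin n, χ (fun i => φ (x i)) ≤ M

/-- the normalised degree of a pair -/
noncomputable def cod2 {V : Type} [Fintype V] {m : ℕ} (χ : (Fin (m + 2) → V) → ℝ) (u v : V) : ℝ :=
  av fun z : Fin m → V => χ (Fin.cons u (Fin.cons v z : Fin (m + 1) → V) : Fin (m + 2) → V)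

/-- the normalised degree of a vertex -/
noncomputable def deg1 {V : Type} [Fintype V] {m : ℕ} (χ : (Fin (m + 2) → V) → ℝ) (u : V) : ℝ :=
  av fun v => cod2 χ u v

/-- density of the edges with weights `1 + s φ` on the pairs -/
noncomputable def TWK {V : Type} [Fintype V] {k : ℕ} (χ : (Fin k → V) → ℝ) (φ : V → V → ℝ) (s : ℝ) : ℝ :=
  av fun x : Fin k → V =>
    (∏ p ∈ univ.filter (fun p : Fin k × Fin k => p.1 < p.2), (1 + s * φ (x p.1) (x p.2))) * χ x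

/-- density of the edges with weights `1 + s g` on the vertices -/
noncomputable def VWK {V : Type} [Fintype V] {k : ℕ} (χ : (Fin k → V) → ℝ) (g : V → ℝ) (s : ℝ) : ℝ :=
  av fun x : Fin k → V => (∏ i, (1 + s * g (x i))) * χ x

/-- TELK: random blow-ups weighted by the pairs. -/
def S_TELK : Prop :=
  ∀ (V : Type) [Fintype V] [Nonempty V] (k : ℕ) (χ : (Fin k → V) → ℝ), KerK χ → ∀ (n : ℕ) (M : ℝ), 1 ≤ n → 0 ≤ M →
    BdK χ n M → ∀ φ : V → V → ℝ, (∀ x y, φ x y = φ y x) → (∀ x y, |φ x y| ≤ 1) → ∀ δ : ℝ, 0 ≤ δ → Cut φ δ →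
    ∀ s : ℝ, 0 ≤ s → s ≤ 1 →
    (n.descFactorial k : ℝ) * (TWK χ φ s - n ^ 2 * 2 ^ (n ^ 2) * δ) ≤ M * (1 + n ^ 2 * 2 ^ (n ^ 2) * δ)

/-- VWK: random blow-ups weighted by the vertices. -/
def S_VWK : Prop :=
  ∀ (V : Type) [Fintype V] [Nonempty V] (k : ℕ) (χ : (Fin k → V) → ℝ), KerK χ → ∀ (n : ℕ) (M : ℝ),
    BdK χ n M → ∀ g : V → ℝ, (∀ x, |g x| ≤ 1) → av g = 0 → ∀ s : ℝ, 0 ≤ s → s ≤ 1 →
    (n.descFactorial k : ℝ) * VWK χ g s ≤ M

/-- EXPK: from the weighted densities to the linear form. -/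
def S_EXPK : Prop :=
  ∀ (V : Type) [Fintype V] [Nonempty V] (m : ℕ) (χ : (Fin (m + 2) → V) → ℝ), KerK χ → ∀ (a η : ℝ), 0 < η → η ≤ 1 →
    a - η ≤ av χ → ∀ φ : V → V → ℝ, (∀ x y, φ x y = φ y x) → (∀ x y, |φ x y| ≤ 1) →
    (∀ s : ℝ, 0 ≤ s → s ≤ 1 → TWK χ φ s ≤ a + η ∧ TWK χ (fun x y => - φ x y) s ≤ a + η) →
    |av fun u => av fun v => φ u v * cod2 χ u v| ≤ (2 + 2 ^ ((m + 2) ^ 2)) * √η

/-- PSDK: `a - cod2` is nearly positive semidefinite on bounded functions. -/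
def S_PSDK : Prop :=
  ∀ (V : Type) [Fintype V] [Nonempty V] (m : ℕ) (χ : (Fin (m + 2) → V) → ℝ), KerK χ → ∀ (a t : ℝ), 0 < t → t ≤ 1 →
    a - t ^ 3 ≤ av χ →
    (∀ g : V → ℝ, (∀ x, |g x| ≤ 1) → av g = 0 → ∀ s : ℝ, 0 ≤ s → s ≤ 1 → VWK χ g s ≤ a + t ^ 3) →
    ∀ f : V → ℝ, (∀ x, |f x| ≤ 1) →
      -(2 ^ (m + 7) * t) ≤ av fun u => av fun v => f u * f v * (a - cod2 χ u v)

/-- LAK: linear algebra; a nearly positive semidefinite step kernel `a - d` with `d ≥ 0` is nearly a Gram matrix of vectors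
in every dimension `D`, up to `a² / (4 D)`. -/
def S_LAK : Prop :=
  ∀ (M : ℕ) (η : ℝ), 0 < η → ∃ ξ : ℝ, 0 < ξ ∧ ∀ (V : Type) [Fintype V] [Nonempty V] (a : ℝ), 0 ≤ a → a ≤ 1 →
    ∀ (c : V → Fin M) (d : Fin M → Fin M → ℝ), (∀ i j, 0 ≤ d i j) → (∀ i j, d i j ≤ 1) → (∀ i j, d i j = d j i) →
    (∀ f : V → ℝ, (∀ x, |f x| ≤ 1) → -ξ ≤ av fun x => av fun y => f x * f y * (a - d (c x) (c y))) →
    ∀ D : ℕ, 1 ≤ D → ∃ u : V → Fin D → ℝ,
      (av fun x => ∑ i, u x i ^ 2) ≤ a + η ∧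
      (∑ i, (av fun x => u x i) ^ 2) ≤ (av fun x => av fun y => (a - d (c x) (c y))) + η ∧
      (av fun x => av fun y => (a - d (c x) (c y) - ∑ i, u x i * u y i) ^ 2) ≤ a ^ 2 / (4 * D) + η

/-! ### Classes of k-graphs -/

/-- The preimage of a k-graph: the k-sets which are mapped onto an edge. -/
def pullK (k : ℕ) {n m : ℕ} (H : Finset (Finset (Fin n))) (φ : Fin m → Fin n) : Finset (Finset (Fin m)) :=
  ((univ : Finset (Fin m)).powersetCard k).filter fun e => e.image φ ∈ H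

/-- A class of k-graphs that is closed under preimages. -/
structure ClsK (k : ℕ) (P : ∀ n : ℕ, Finset (Finset (Fin n)) → Prop) : Prop where
  uni : ∀ (n : ℕ) (H : Finset (Finset (Fin n))), P n H → ∀ e ∈ H, e.card = k
  pull : ∀ (n m : ℕ) (φ : Fin m → Fin n) (H : Finset (Finset (Fin n))), P n H → P m (pullK k H φ)

/-- `H` is a k-graph on `Fin n` without `r` vertices all of whose k-subsets are edges. -/
def FreeK (k r n : ℕ) (H : Finset (Finset (Fin n))) : Prop :=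
  (∀ e ∈ H, e.card = k) ∧ ∀ S : Finset (Fin n), S.card = r → ∃ e ⊆ S, e.card = k ∧ e ∉ H

/-- indicator of the edges -/
def TK (k : ℕ) {n : ℕ} (H : Finset (Finset (Fin n))) (x : Fin k → Fin n) : ℝ :=
  if univ.image x ∈ H then 1 else 0

/-- degree of a pair: the number of edges which contain `x` and `y` -/
def pdeg {n : ℕ} (H : Finset (Finset (Fin n))) (x y : Fin n) : ℕ :=
  (H.filter fun e => x ∈ e ∧ y ∈ e).card

/-- KERK: kernels of k-graphs. -/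
def S_KERK : Prop :=
  (∀ (k n : ℕ) (H : Finset (Finset (Fin n))), (∀ e ∈ H, e.card = k) → KerK (TK k H)) ∧
  (∀ (k n : ℕ) (H : Finset (Finset (Fin n))), (∀ e ∈ H, e.card = k) →
    ∑ x : Fin k → Fin n, TK k H x = (k.factorial : ℝ) * H.card) ∧
  (∀ (k : ℕ) (P : ∀ n : ℕ, Finset (Finset (Fin n)) → Prop), ClsK k P → ∀ (N : ℕ) (H : Finset (Finset (Fin N))), P N H →
    ∀ n : ℕ, BdK (TK k H) n ((k.factorial : ℝ) * exP P n)) ∧
  (∀ (m n : ℕ) (H : Finset (Finset (Fin n))), (∀ e ∈ H, e.card = m + 2) → ∀ x y : Fin n, x ≠ y →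
    cod2 (TK (m + 2) H) x y = (m.factorial : ℝ) * pdeg H x y / (n : ℝ) ^ m)

/-- LIMK: the maximum densities converge and are at least their limit. -/
def S_LIMK : Prop :=
  ∀ (k : ℕ), 1 ≤ k → ∀ P : (∀ n : ℕ, Finset (Finset (Fin n)) → Prop), ClsK k P →
    ∃ a : ℝ, 0 ≤ a ∧ a ≤ 1 ∧
      Filter.Tendsto (fun n : ℕ => (exP P n : ℝ) / (n.choose k : ℝ)) Filter.atTop (nhds a) ∧
      ∀ n : ℕ, k ≤ n → a ≤ (exP P n : ℝ) / (n.choose k : ℝ)

/-- FREEK: complete k-graphs. -/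
def S_FREEK : Prop := ∀ k r : ℕ, 2 ≤ k → k ≤ r → ClsK k (FreeK k r)

end Pool.Agent.H70.GR
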