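import Pool.Agent.H70.GR.Stm
import Pool.Agent.H70.QR.TEL

/-! TELK: random blow-ups weighted by the pairs, k-graphs. -/

set_option autoImplicit false
open Finset

namespace Pool.Agent.H70.GR.TELK

open Pool.Agent.H70.RC Pool.Agent.H70.QR Pool.Agent.H70.QR.TEL Pool.Agent.H70.GR

theorem card_sym2' (n : ℕ) (hn : 1 ≤ n) : Fintype.card (Sym2 (Fin n)) ≤ n ^ 2 := by
  rw [Sym2.card, Fintype.card_fin, Nat.choose_two_right, Nat.add_sub_cancel]
  have : (n + 1) * n ≤ 2 * n ^ 2 := by nlinarith
  omega

theorem av_marg {V : Type} [Fintype V] [Nonempty V] {k n : ℕ} (y : Fin k → Fin n)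
    (hy : Function.Injective y) (F : (Fin k → V) → ℝ) :
    (av fun x : Fin n → V => F (fun i => x (y i))) = av F := by
  classical
  have e1 := av_equiv (Equiv.piEquivPiSubtypeProd (fun i => i ∈ Set.range y) (fun _ : Fin n => V))
    (fun q : ({i // i ∈ Set.range y} → V) × ({i // ¬ i ∈ Set.range y} → V) =>
      F (fun i => q.1 ⟨y i, ⟨i, rfl⟩⟩))
  have e2 : (av fun x : Fin n → V => F (fun i => x (y i))) =
      av (fun q : ({i // i ∈ Set.range y} → V) × ({i // ¬ i ∈ Set.range y} → V) =>
        F (fun i => q.1 ⟨y i, ⟨i, rfl⟩⟩)) := by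
    rw [← e1]
    rfl
  rw [e2, av_prod (fun (a : {i // i ∈ Set.range y} → V) (_ : {i // ¬ i ∈ Set.range y} → V) =>
    F (fun i => a ⟨y i, ⟨i, rfl⟩⟩))]
  simp only [av_const]
  have e3 := av_equiv ((Equiv.ofInjective y hy).symm.arrowCongr (Equiv.refl V)) F
  rw [← e3]
  rfl

theorem card_inj (k n : ℕ) :
    (univ.filter (fun y : Fin k → Fin n => Function.Injective y)).card = n.descFactorial k := by
  classical
  have h := Fintype.card_embedding_eq (α := Fin k) (β := Fin n)
  rw [Fintype.card_fin, Fintype.card_fin] at h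
  rw [← h, ← Fintype.card_subtype]
  exact Fintype.card_congr (Equiv.subtypeInjectiveEquivEmbedding (Fin k) (Fin n))

theorem telk : S_TELK := by
  intro V _ _ k χ hχ n M hn hM hBd φ hφ h1 δ hδ hC s hs0 hs1
  classical
  set P0 : Finset (Sym2 (Fin n)) := univ.filter (fun e => ¬ e.IsDiag) with hP0
  set ε : ℝ := n ^ 2 * 2 ^ (n ^ 2) * δ with hε
  have hf0 : ∀ x y, 0 ≤ 1 + s * φ x y := by
    intro x y
    have h2 := abs_le.mp (h1 x y)
    nlinarith
  have hcardle : ∀ R : Finset (Sym2 (Fin n)), (R.card : ℝ) * (2 ^ (n ^ 2) * δ) ≤ ε := by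
    intro R
    have h2 : (R.card : ℝ) ≤ (n : ℝ) ^ 2 := by
      exact_mod_cast (card_le_univ R).trans (card_sym2' n hn)
    rw [hε, mul_assoc]
    exact mul_le_mul_of_nonneg_right h2 (by positivity)
  set w : Finset (Sym2 (Fin n)) → (Fin n → V) → ℝ :=
    fun P x => Wt (fun x y => 1 + s * φ x y) (wsymm hφ s) P x with hw
  have hw0 : ∀ P x, 0 ≤ w P x := fun P x => Wt_nonneg hf0 P x
  -- the total weight
  have hA : av (w P0) ≤ 1 + ε := by
    have h2 := remove (ι := Fin n) hφ h1 hδ hC hs0 hs1 (g := fun _ => 1) (fun _ => zero_le_one)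
      (fun _ => le_refl _) (card_sym2' n hn) ∅ P0 (disjoint_empty_right _) (by
        intro e he
        refine ⟨(mem_filter.mp he).2, ?_⟩
        induction e using Sym2.ind with
        | _ a b => exact ⟨a, by simp, fun _ _ => rfl⟩)
    have e1 : (av fun x : Fin n → V => 1 * Wt (fun x y => 1 + s * φ x y) (wsymm hφ s) ∅ x) = 1 := by
      simp only [Wt_empty, mul_one]
      exact av_const 1
    rw [e1, union_empty] at h2
    have h3 := (abs_le.mp h2).2
    have h4 := hcardle P0
    have e2 : (av fun x : Fin n → V => 1 * Wt (fun x y => 1 + s * φ x y) (wsymm hφ s) P0 x) =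
        av (w P0) := av_congr fun x => one_mul _
    rw [e2] at h3
    linarith
  -- one injective tuple
  have hT : ∀ y : Fin k → Fin n, Function.Injective y →
      TWK χ φ s - ε ≤ av fun x : Fin n → V => χ (fun i => x (y i)) * w P0 x := by
    intro y hy
    set S : Finset (Fin k × Fin k) := univ.filter (fun p : Fin k × Fin k => p.1 < p.2) with hS
    set P : Finset (Sym2 (Fin n)) := S.image (fun p => s(y p.1, y p.2)) with hP
    have hPP : P ⊆ P0 := by
      intro e he
      rw [hP, mem_image] at he
      obtain ⟨p, hp, rfl⟩ := he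
      rw [hS, mem_filter] at hp
      rw [hP0, mem_filter, Sym2.mk_isDiag_iff]
      exact ⟨mem_univ _, fun h => (ne_of_lt hp.2) (hy h)⟩
    have h2 := remove (ι := Fin n) hφ h1 hδ hC hs0 hs1
      (g := fun x => χ (fun i => x (y i))) (fun x => hχ.nonneg _)
      (fun x => hχ.le_one _) (card_sym2' n hn) P (P0 \ P) sdiff_disjoint (by
        intro e he
        rw [mem_sdiff] at he
        refine ⟨(mem_filter.mp he.1).2, ?_⟩
        have hd := (mem_filter.mp he.1).2
        have hnot := he.2
        induction e using Sym2.ind with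
        | _ a b =>
          rw [Sym2.mk_isDiag_iff] at hd
          have hfree : ∀ c : Fin n, c ∉ Set.range y → ∀ (x : Fin n → V) (u : V),
              χ (fun i => Function.update x c u (y i)) = χ (fun i => x (y i)) := by
            intro c hc x u
            congr 1
            funext i
            rw [Function.update_of_ne]
            intro h
            exact hc ⟨i, h⟩
          by_cases ha : a ∈ Set.range y
          · by_cases hb : b ∈ Set.range y
            · exfalso
              apply hnot
              obtain ⟨i, rfl⟩ := ha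
              obtain ⟨j, rfl⟩ := hb
              have hij : i ≠ j := fun h => hd (by rw [h])
              rw [hP, mem_image]
              rcases lt_or_gt_of_ne hij with h | h
              · exact ⟨(i, j), by rw [hS, mem_filter]; exact ⟨mem_univ _, h⟩, rfl⟩
              · exact ⟨(j, i), by rw [hS, mem_filter]; exact ⟨mem_univ _, h⟩, Sym2.eq_swap⟩
            · exact ⟨b, by simp, hfree b hb⟩
          · exact ⟨a, by simp, hfree a ha⟩)
    rw [sdiff_union_of_subset hPP] at h2
    have h3 := (abs_le.mp h2).1
    have h4 := hcardle (P0 \ P)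
    have e5 : (av fun x : Fin n → V => χ (fun i => x (y i)) *
        Wt (fun x y => 1 + s * φ x y) (wsymm hφ s) P x) = TWK χ φ s := by
      have e6 : ∀ x : Fin n → V, Wt (fun x y => 1 + s * φ x y) (wsymm hφ s) P x =
          ∏ p ∈ S, (1 + s * φ (x (y p.1)) (x (y p.2))) := by
        intro x
        unfold Wt
        rw [hP, prod_image]
        · rfl
        · intro p hp q hq hpq
          rw [mem_coe, hS, mem_filter] at hp hq
          have hpq' : s(y p.1, y p.2) = s(y q.1, y q.2) := hpq
          rw [Sym2.eq_iff] at hpq'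
          rcases hpq' with h | h
          · exact Prod.ext (hy h.1) (hy h.2)
          · exfalso
            have h5 := hy h.1
            have h6 := hy h.2
            have h7 := hp.2
            have h8 := hq.2
            rw [h5, h6] at h7
            exact lt_asymm h7 h8
      have e7 : ∀ x : Fin n → V, χ (fun i => x (y i)) *
          Wt (fun x y => 1 + s * φ x y) (wsymm hφ s) P x =
          (fun z : Fin k → V => (∏ p ∈ S, (1 + s * φ (z p.1) (z p.2))) * χ z)
            (fun i => x (y i)) := by
        intro x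
        rw [e6]
        ring
      rw [av_congr e7]
      exact av_marg y hy (fun z : Fin k → V => (∏ p ∈ S, (1 + s * φ (z p.1) (z p.2))) * χ z)
    rw [e5] at h3
    change TWK χ φ s - ε ≤ av fun x : Fin n → V => χ (fun i => x (y i)) *
      Wt (fun x y => 1 + s * φ x y) (wsymm hφ s) P0 x
    linarith
  have hsum : (n.descFactorial k : ℝ) * (TWK χ φ s - ε) ≤
      ∑ y : Fin k → Fin n, av fun x : Fin n → V => χ (fun i => x (y i)) * w P0 x := by
    calc (n.descFactorial k : ℝ) * (TWK χ φ s - ε) =
        ∑ _y ∈ univ.filter (fun y : Fin k → Fin n => Function.Injective y),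
          (TWK χ φ s - ε) := by
          rw [sum_const, card_inj, nsmul_eq_mul]
      _ ≤ ∑ y ∈ univ.filter (fun y : Fin k → Fin n => Function.Injective y),
          av fun x : Fin n → V => χ (fun i => x (y i)) * w P0 x :=
          sum_le_sum fun y hy => hT y (mem_filter.mp hy).2
      _ ≤ _ := sum_le_sum_of_subset_of_nonneg (filter_subset _ _) fun y _ _ =>
          av_nonneg fun x => mul_nonneg (hχ.nonneg _) (hw0 _ _)
  have hup : ∑ y : Fin k → Fin n, (av fun x : Fin n → V => χ (fun i => x (y i)) * w P0 x) ≤
      M * (1 + ε) := by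
    rw [← av_sum]
    calc (av fun x : Fin n → V => ∑ y : Fin k → Fin n, χ (fun i => x (y i)) * w P0 x)
        ≤ av fun x : Fin n → V => M * w P0 x :=
          av_mono fun x => by
            rw [← sum_mul]
            exact mul_le_mul_of_nonneg_right (hBd x) (hw0 _ _)
      _ = M * av (w P0) := av_mul_left _ _
      _ ≤ M * (1 + ε) := mul_le_mul_of_nonneg_left hA hM
  exact hsum.trans hup

end Pool.Agent.H70.GR.TELK

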