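import Pool.Agent.H70.GR.Stm

/-! VWK: random blow-ups weighted by the vertices (helper870 for helper70). -/

set_option autoImplicit false
open Finset

namespace Pool.Agent.H70.GR.VWK

open Pool.Agent.H70.RC Pool.Agent.H70.QR Pool.Agent.H70.GR

/-- independence -/
theorem av_pi_prod {C V : Type} [Fintype C] [DecidableEq C] [Fintype V] (w : V → ℝ) :
    av (fun z : C → V => ∏ i, w (z i)) = (av w) ^ (Fintype.card C) := by
  unfold av
  rw [Fintype.card_fun, div_pow, Nat.cast_pow]
  congr 1
  have h := Finset.prod_univ_sum (fun _ : C => (univ : Finset V)) (fun _ v => w v)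
  rw [Finset.prod_const, card_univ, Fintype.piFinset_univ] at h
  exact h.symm

/-- the coordinates outside the range of `y` integrate to one -/
theorem av_inj {K X V : Type} [Fintype K] [DecidableEq K] [Fintype X] [DecidableEq X] [Fintype V]
    (w : V → ℝ) (hw : av w = 1) (y : K → X) (hy : Function.Injective y) (F : (K → V) → ℝ) :
    av (fun φ : X → V => (∏ i, w (φ i)) * F (fun i => φ (y i))) =
      av (fun z : K → V => (∏ i, w (z i)) * F z) := by
  classical
  let C : Type := ↥((Set.range y)ᶜ : Set X)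
  let e : K ⊕ C ≃ X :=
    (Equiv.sumCongr (Equiv.ofInjective y hy) (Equiv.refl _)).trans (Equiv.Set.sumCompl (Set.range y))
  have he : ∀ i, e (Sum.inl i) = y i := fun i => rfl
  let e' : (K → V) × (C → V) ≃ (X → V) :=
    (Equiv.sumArrowEquivProdArrow K C V).symm.trans (Equiv.arrowCongr e (Equiv.refl V))
  have h1 : ∀ (p : (K → V) × (C → V)) (i : K), e' p (y i) = p.1 i := by
    intro p i
    rw [← he i]
    show Sum.elim p.1 p.2 (e.symm (e (Sum.inl i))) = _
    rw [Equiv.symm_apply_apply]
    rfl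
  have h2 : ∀ (p : (K → V) × (C → V)) (i : C), e' p (e (Sum.inr i)) = p.2 i := by
    intro p i
    show Sum.elim p.1 p.2 (e.symm (e (Sum.inr i))) = _
    rw [Equiv.symm_apply_apply]
    rfl
  rw [← av_equiv e']
  have h3 : ∀ p : (K → V) × (C → V),
      (∏ i, w (e' p i)) * F (fun i => e' p (y i)) =
        ((∏ i, w (p.1 i)) * F p.1) * ∏ i, w (p.2 i) := by
    intro p
    have h4 : ∏ i, w (e' p i) = (∏ i, w (p.1 i)) * ∏ i, w (p.2 i) := by
      rw [← Equiv.prod_comp e (fun i => w (e' p i)), Fintype.prod_sum_type]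
      simp only [he, h1, h2]
    have h5 : (fun i => e' p (y i)) = p.1 := funext (h1 p)
    rw [h4, h5]
    ring
  rw [av_congr h3, av_prod (fun (a : K → V) (b : C → V) => ((∏ i, w (a i)) * F a) * ∏ i, w (b i))]
  refine av_congr fun a => ?_
  rw [av_mul_left, av_pi_prod, hw, one_pow, mul_one]

theorem vwk : S_VWK := by
  intro V _ _ k χ hχ n M hM g hg hg0 s hs0 hs1
  classical
  let w : V → ℝ := fun v => 1 + s * g v
  have hw0 : ∀ v, 0 ≤ w v := by
    intro v
    have h := abs_le.mp (hg v)
    show 0 ≤ 1 + s * g v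
    nlinarith [h.1, h.2]
  have hw1 : av w = 1 := by
    show av (fun v => 1 + s * g v) = 1
    rw [av_add (fun _ => 1) (fun v => s * g v), av_const, av_mul_left, hg0, mul_zero, add_zero]
  have hW0 : ∀ φ : Fin n → V, 0 ≤ ∏ i, w (φ i) := fun φ => prod_nonneg fun i _ => hw0 _
  -- the weighted sum
  have h1 : av (fun φ : Fin n → V => (∏ i, w (φ i)) * ∑ x : Fin k → Fin n, χ (fun i => φ (x i))) ≤ M := by
    have h2 : av (fun φ : Fin n → V => (∏ i, w (φ i)) * M) = M := by
      rw [av_mul_right, av_pi_prod, hw1, one_pow, one_mul]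
    refine le_of_le_of_eq (av_mono fun φ => ?_) h2
    exact mul_le_mul_of_nonneg_left (hM φ) (hW0 φ)
  have h2 : av (fun φ : Fin n → V => (∏ i, w (φ i)) * ∑ x : Fin k → Fin n, χ (fun i => φ (x i))) =
      ∑ x : Fin k → Fin n, av (fun φ : Fin n → V => (∏ i, w (φ i)) * χ (fun i => φ (x i))) := by
    rw [← av_sum]
    exact av_congr fun φ => mul_sum _ _ _
  have h3 : ∀ x : Fin k → Fin n,
      0 ≤ av (fun φ : Fin n → V => (∏ i, w (φ i)) * χ (fun i => φ (x i))) :=
    fun x => av_nonneg fun φ => mul_nonneg (hW0 φ) (hχ.nonneg _)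
  have h4 : ∑ x ∈ univ.filter (fun x : Fin k → Fin n => Function.Injective x),
      av (fun φ : Fin n → V => (∏ i, w (φ i)) * χ (fun i => φ (x i))) ≤
      ∑ x : Fin k → Fin n, av (fun φ : Fin n → V => (∏ i, w (φ i)) * χ (fun i => φ (x i))) :=
    sum_le_sum_of_subset_of_nonneg (filter_subset _ _) fun x _ _ => h3 x
  have h5 : ∑ x ∈ univ.filter (fun x : Fin k → Fin n => Function.Injective x),
      av (fun φ : Fin n → V => (∏ i, w (φ i)) * χ (fun i => φ (x i))) =
      (n.descFactorial k : ℝ) * VWK χ g s := by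
    have h6 : ∀ x ∈ univ.filter (fun x : Fin k → Fin n => Function.Injective x),
        av (fun φ : Fin n → V => (∏ i, w (φ i)) * χ (fun i => φ (x i))) = VWK χ g s := by
      intro x hx
      rw [mem_filter] at hx
      exact av_inj w hw1 x hx.2 χ
    rw [sum_congr rfl h6, sum_const, nsmul_eq_mul]
    congr 2
    have h7 : (univ.filter (fun x : Fin k → Fin n => Function.Injective x)).card =
        Fintype.card {x : Fin k → Fin n // Function.Injective x} := by
      rw [Fintype.card_subtype]
    rw [h7, Fintype.card_congr (Equiv.subtypeInjectiveEquivEmbedding (Fin k) (Fin n)),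
      Fintype.card_embedding_eq, Fintype.card_fin, Fintype.card_fin]
  rw [← h5]
  linarith

end Pool.Agent.H70.GR.VWK
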